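import Mathlib
import Pool.Agent.W565.MOFS

/-! An Erdős–Turán type inequality for the sawtooth function, with decaying weights. -/

set_option autoImplicit false

open Finset Filter Topology

namespace Pool.Agent.Helper46_SP

open Pool.Agent.H469R2.NK (e norm_e e_add)
open Pool.Agent.W565.MOFS (P2 cos_sum saw_lower saw_upper re_e norm_e_sub_one)

/-- the differences of `P2`, bounded with a weight `ω h ≥ ‖e(hδ) - 1‖` -/
theorem diff_bound_w {ι : Type} (S : Finset ι) (x : ι → ℝ) (δ : ℝ) (K : ℕ) (hK : 1 ≤ K)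
    (ω : ℕ → ℝ) (hω : ∀ h : ℕ, 1 ≤ h → ‖e (h * δ) - 1‖ ≤ ω h) :
    |∑ n ∈ S, (P2 (Int.fract (x n + δ)) - P2 (Int.fract (x n)))| ≤
      1 / Real.pi ^ 2 * (∑ h ∈ Icc 1 K, ω h / (h : ℝ) ^ 2 * ‖∑ n ∈ S, e (h * x n)‖ +
        2 * S.card / K) := by
  set B : ℝ := ∑ h ∈ Icc 1 K, ω h / (h : ℝ) ^ 2 * ‖∑ n ∈ S, e (h * x n)‖ +
        2 * S.card / K with hB
  let f : ℕ → ℝ := fun h => ∑ n ∈ S, (1 / (h : ℝ) ^ 2 * Real.cos (2 * Real.pi * h * (x n + δ)) -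
    1 / (h : ℝ) ^ 2 * Real.cos (2 * Real.pi * h * x n))
  have hf : HasSum f (∑ n ∈ S, (Real.pi ^ 2 * P2 (Int.fract (x n + δ)) -
      Real.pi ^ 2 * P2 (Int.fract (x n)))) :=
    hasSum_sum fun n _ => (cos_sum (x n + δ)).sub (cos_sum (x n))
  have hf0 : f 0 = 0 := by simp [f]
  have hf1 : ∀ h : ℕ, 1 ≤ h → |f h| ≤ ω h / (h : ℝ) ^ 2 * ‖∑ n ∈ S, e (h * x n)‖ := by
    intro h hh
    have hh0 : (0 : ℝ) < h := by exact_mod_cast hh
    have e1 : f h = 1 / (h : ℝ) ^ 2 * ((e (h * δ) - 1) * ∑ n ∈ S, e (h * x n)).re := by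
      simp only [f]
      rw [mul_sum, Complex.re_sum, mul_sum]
      refine sum_congr rfl fun n _ => ?_
      have e2 : (e (h * δ) - 1) * e (h * x n) = e (h * (x n + δ)) - e (h * x n) := by
        rw [mul_add, e_add]; ring
      rw [e2, Complex.sub_re, re_e, re_e]
      ring_nf
    rw [e1, abs_mul, abs_of_pos (by positivity : (0 : ℝ) < 1 / (h : ℝ) ^ 2)]
    have h2 : |((e (h * δ) - 1) * ∑ n ∈ S, e (h * x n)).re| ≤
        ω h * ‖∑ n ∈ S, e (h * x n)‖ := by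
      refine (Complex.abs_re_le_norm _).trans ?_
      rw [norm_mul]
      exact mul_le_mul_of_nonneg_right (hω h hh) (norm_nonneg _)
    calc 1 / (h : ℝ) ^ 2 * |((e (h * δ) - 1) * ∑ n ∈ S, e (h * x n)).re|
        ≤ 1 / (h : ℝ) ^ 2 * (ω h * ‖∑ n ∈ S, e (h * x n)‖) := by gcongr
      _ = _ := by ring
  have hf2 : ∀ h : ℕ, |f h| ≤ ((h : ℝ) ^ 2)⁻¹ * (2 * S.card) := by
    intro h
    refine (abs_sum_le_sum_abs _ _).trans ?_
    have h2 : ∀ n ∈ S, |1 / (h : ℝ) ^ 2 * Real.cos (2 * Real.pi * h * (x n + δ)) -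
        1 / (h : ℝ) ^ 2 * Real.cos (2 * Real.pi * h * x n)| ≤ ((h : ℝ) ^ 2)⁻¹ * 2 := by
      intro n _
      rw [← mul_sub, abs_mul, abs_of_nonneg (by positivity : (0 : ℝ) ≤ 1 / (h : ℝ) ^ 2), one_div]
      refine mul_le_mul_of_nonneg_left ?_ (by positivity)
      have h3 := Real.abs_cos_le_one (2 * Real.pi * h * (x n + δ))
      have h4 := Real.abs_cos_le_one (2 * Real.pi * h * x n)
      have := abs_sub (Real.cos (2 * Real.pi * h * (x n + δ))) (Real.cos (2 * Real.pi * h * x n))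
      linarith
    refine (sum_le_sum h2).trans ?_
    rw [sum_const, nsmul_eq_mul]
    apply le_of_eq; ring
  have hK0 : (0 : ℝ) < K := by exact_mod_cast hK
  have hpart : ∀ M : ℕ, |∑ h ∈ range M, f h| ≤ B := by
    intro M
    refine (abs_sum_le_sum_abs _ _).trans ?_
    have hM : range M ⊆ insert 0 (Icc 1 K ∪ Ioc K (max K M)) := by
      intro h hh
      rw [mem_range] at hh
      rw [mem_insert, mem_union, mem_Icc, mem_Ioc]
      by_cases h1 : h = 0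
      · exact Or.inl h1
      · by_cases h2 : h ≤ K
        · exact Or.inr (Or.inl ⟨by omega, h2⟩)
        · exact Or.inr (Or.inr ⟨by omega, le_max_of_le_right hh.le⟩)
    refine (sum_le_sum_of_subset_of_nonneg hM (fun _ _ _ => abs_nonneg _)).trans ?_
    have h0 : 0 ∉ Icc 1 K ∪ Ioc K (max K M) := by
      rw [mem_union, mem_Icc, mem_Ioc]; omega
    have hdisj : Disjoint (Icc 1 K) (Ioc K (max K M)) := by
      rw [disjoint_left]
      intro a ha ha'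
      rw [mem_Icc] at ha
      rw [mem_Ioc] at ha'
      omega
    rw [sum_insert h0, hf0, abs_zero, zero_add, sum_union hdisj, hB]
    refine add_le_add (sum_le_sum fun h hh => hf1 h (mem_Icc.1 hh).1) ?_
    refine (sum_le_sum fun h _ => hf2 h).trans ?_
    rw [← sum_mul]
    have h5 := sum_Ioc_inv_sq_le_sub (α := ℝ) (k := K) (n := max K M) (by omega) (le_max_left _ _)
    have h6 : (0 : ℝ) ≤ ((max K M : ℕ) : ℝ)⁻¹ := by positivity
    calc (∑ h ∈ Ioc K (max K M), ((h : ℝ) ^ 2)⁻¹) * (2 * (S.card : ℝ))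
        ≤ (K : ℝ)⁻¹ * (2 * (S.card : ℝ)) := by
          refine mul_le_mul_of_nonneg_right ?_ (by positivity)
          linarith
      _ = 2 * S.card / K := by rw [div_eq_mul_inv]; ring
  have hlim : |∑ n ∈ S, (Real.pi ^ 2 * P2 (Int.fract (x n + δ)) -
      Real.pi ^ 2 * P2 (Int.fract (x n)))| ≤ B :=
    le_of_tendsto (hf.tendsto_sum_nat.abs) (Eventually.of_forall hpart)
  have hpi : (0 : ℝ) < Real.pi ^ 2 := by positivity
  have e3 : ∑ n ∈ S, (P2 (Int.fract (x n + δ)) - P2 (Int.fract (x n))) = 1 / Real.pi ^ 2 *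
      ∑ n ∈ S, (Real.pi ^ 2 * P2 (Int.fract (x n + δ)) - Real.pi ^ 2 * P2 (Int.fract (x n))) := by
    rw [mul_sum]
    refine sum_congr rfl fun n _ => ?_
    field_simp
  rw [e3, abs_mul, abs_of_pos (by positivity : (0 : ℝ) < 1 / Real.pi ^ 2)]
  exact mul_le_mul_of_nonneg_left hlim (by positivity)

/-- sawtooth sums through exponential sums, with weights -/
theorem saw_w {ι : Type} (S : Finset ι) (x : ι → ℝ) (δ : ℝ) (hδ0 : 0 < δ) (hδ1 : δ ≤ 1) (K : ℕ)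
    (hK : 1 ≤ K) (ω : ℕ → ℝ) (hω : ∀ h : ℕ, 1 ≤ h → ‖e (h * δ) - 1‖ ≤ ω h)
    (hω' : ∀ h : ℕ, 1 ≤ h → ‖e (h * (-δ)) - 1‖ ≤ ω h) :
    |∑ n ∈ S, (Int.fract (x n) - 1 / 2)| ≤
      1 / Real.pi ^ 2 * (∑ h ∈ Icc 1 K, ω h / (h : ℝ) ^ 2 * ‖∑ n ∈ S, e (h * x n)‖ +
        2 * S.card / K) / (2 * δ) + S.card * (δ / 2) := by
  set D : ℝ := 1 / Real.pi ^ 2 * (∑ h ∈ Icc 1 K, ω h / (h : ℝ) ^ 2 * ‖∑ n ∈ S, e (h * x n)‖ +
        2 * S.card / K) with hD
  have hu : |∑ n ∈ S, (P2 (Int.fract (x n + δ)) - P2 (Int.fract (x n)))| ≤ D :=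
    diff_bound_w S x δ K hK ω hω
  have hl : |∑ n ∈ S, (P2 (Int.fract (x n + -δ)) - P2 (Int.fract (x n)))| ≤ D :=
    diff_bound_w S x (-δ) K hK ω hω'
  have h1 : ∑ n ∈ S, (Int.fract (x n) - 1 / 2) ≤ D / (2 * δ) + S.card * (δ / 2) := by
    have h2 : ∑ n ∈ S, (Int.fract (x n) - 1 / 2) ≤
        ∑ n ∈ S, ((P2 (Int.fract (x n)) - P2 (Int.fract (x n - δ))) / (2 * δ) + δ / 2) :=
      sum_le_sum fun n _ => saw_upper (x n) δ hδ0 hδ1
    rw [sum_add_distrib, ← sum_div, sum_const, nsmul_eq_mul] at h2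
    have h3 : ∑ n ∈ S, (P2 (Int.fract (x n)) - P2 (Int.fract (x n - δ))) ≤ D := by
      have h4 := (abs_le.1 hl).1
      have h5 : ∑ n ∈ S, (P2 (Int.fract (x n)) - P2 (Int.fract (x n - δ))) =
          -∑ n ∈ S, (P2 (Int.fract (x n + -δ)) - P2 (Int.fract (x n))) := by
        rw [← sum_neg_distrib]
        refine sum_congr rfl fun n _ => ?_
        rw [sub_eq_add_neg (x n) δ]; ring
      rw [h5]; linarith
    have h6 : (∑ n ∈ S, (P2 (Int.fract (x n)) - P2 (Int.fract (x n - δ)))) / (2 * δ) ≤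
        D / (2 * δ) := by gcongr
    linarith
  have h2 : -(D / (2 * δ) + S.card * (δ / 2)) ≤ ∑ n ∈ S, (Int.fract (x n) - 1 / 2) := by
    have h2 : ∑ n ∈ S, ((P2 (Int.fract (x n + δ)) - P2 (Int.fract (x n))) / (2 * δ) - δ / 2) ≤
        ∑ n ∈ S, (Int.fract (x n) - 1 / 2) :=
      sum_le_sum fun n _ => saw_lower (x n) δ hδ0 hδ1
    rw [sum_sub_distrib, ← sum_div, sum_const, nsmul_eq_mul] at h2
    have h6 : -D / (2 * δ) ≤
        (∑ n ∈ S, (P2 (Int.fract (x n + δ)) - P2 (Int.fract (x n)))) / (2 * δ) := by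
      have := (abs_le.1 hu).1
      gcongr
    have h7 : -D / (2 * δ) = -(D / (2 * δ)) := neg_div _ _
    linarith
  exact abs_le.2 ⟨h2, h1⟩

/-- weights: `‖e(hδ) - 1‖ ≤ 4 √(h δ)` -/
lemma norm_e_sub_one_sqrt (t : ℝ) (ht : 0 ≤ t) (s : ℝ) (hs : |s| = t) :
    ‖e s - 1‖ ≤ 4 * Real.sqrt t := by
  have h1 := norm_e_sub_one s
  rw [hs] at h1
  have h2 : ‖e s - 1‖ ≤ 2 := by
    refine (norm_sub_le _ _).trans ?_
    rw [norm_e, norm_one]; norm_num
  have hst : Real.sqrt t * Real.sqrt t = t := Real.mul_self_sqrt ht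
  have hs0 : 0 ≤ Real.sqrt t := Real.sqrt_nonneg t
  have hpi : Real.pi ≤ 4 := Real.pi_le_four
  by_cases h : Real.sqrt t ≤ 1 / 2
  · have h3 : 2 * Real.pi * t ≤ 8 * (Real.sqrt t * Real.sqrt t) := by
      rw [hst]; nlinarith
    nlinarith
  · push Not at h
    linarith

lemma harmonic_le (K : ℕ) (hK : 1 ≤ K) : ∑ h ∈ Icc 1 K, 1 / (h : ℝ) ≤ 1 + Real.log K := by
  have h := harmonic_le_one_add_log K
  rw [harmonic_eq_sum_Icc] at h
  push_cast at h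
  refine le_trans (le_of_eq ?_) h
  apply sum_congr rfl
  intro i _
  rw [one_div]

/-- The inequality used: if `‖∑ e(h x)‖ ≤ C₁ √h + C₂` for all `h ≤ H²`. -/
theorem saw_main {ι : Type} (S : Finset ι) (x : ι → ℝ) (H : ℕ) (hH : 1 ≤ H) (C₁ C₂ : ℝ)
    (hC₁ : 0 ≤ C₁) (hC₂ : 0 ≤ C₂)
    (h : ∀ h : ℕ, 1 ≤ h → ‖∑ n ∈ S, e (h * x n)‖ ≤ C₁ * Real.sqrt h + C₂) :
    |∑ n ∈ S, (Int.fract (x n) - 1 / 2)| ≤
      S.card / H + (C₁ * Real.sqrt H + C₂) * (1 + 2 * Real.log H) := by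
  have hH0 : (0 : ℝ) < H := by exact_mod_cast hH
  have hH1 : (1 : ℝ) ≤ H := by exact_mod_cast hH
  set δ : ℝ := 1 / H with hδ
  have hδ0 : 0 < δ := by positivity
  have hδ1 : δ ≤ 1 := by rw [hδ, div_le_one hH0]; exact hH1
  -- the weights: minimum of `2 π h δ` and `4 √(h δ)`
  set ω : ℕ → ℝ := fun h => min (2 * Real.pi * (h * δ)) (4 * Real.sqrt (h * δ)) with hω
  have hω1 : ∀ s : ℝ, |s| = δ → ∀ h : ℕ, 1 ≤ h → ‖e (h * s) - 1‖ ≤ ω h := by
    intro s hs h hh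
    have hh0 : (0 : ℝ) < h := by exact_mod_cast hh
    have habs : |(h : ℝ) * s| = h * δ := by rw [abs_mul, abs_of_pos hh0, hs]
    simp only [hω]
    apply le_min
    · have := norm_e_sub_one (h * s)
      rwa [habs] at this
    · exact norm_e_sub_one_sqrt _ (by positivity) _ habs
  have hmain := saw_w S x δ hδ0 hδ1 (H ^ 2) (Nat.one_le_pow _ _ hH) ω
    (hω1 δ (abs_of_pos hδ0)) (hω1 (-δ) (by rw [abs_neg, abs_of_pos hδ0]))
  refine hmain.trans ?_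
  have hpi3 : (3 : ℝ) < Real.pi := Real.pi_gt_three
  have hpi0 : (0 : ℝ) < Real.pi := Real.pi_pos
  -- bound of the main sum
  have hterm : ∀ h' ∈ Icc 1 (H ^ 2), ω h' / (h' : ℝ) ^ 2 * ‖∑ n ∈ S, e (h' * x n)‖ ≤
      (2 * Real.pi ^ 2 * δ) * (C₁ * Real.sqrt H + C₂) * (1 / (h' : ℝ)) := by
    intro h' hh'
    have hh1 : 1 ≤ h' := (mem_Icc.1 hh').1
    have hh0 : (0 : ℝ) < h' := by exact_mod_cast hh1
    have hb := h h' hh1
    have hω0 : 0 ≤ ω h' := by simp only [hω]; positivity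
    have h1 : ω h' / (h' : ℝ) ^ 2 * ‖∑ n ∈ S, e (h' * x n)‖ ≤
        ω h' / (h' : ℝ) ^ 2 * (C₁ * Real.sqrt h' + C₂) := by gcongr
    refine h1.trans ?_
    have hω2 : ω h' ≤ 2 * Real.pi * (h' * δ) := min_le_left _ _
    have hω3 : ω h' ≤ 4 * Real.sqrt (h' * δ) := min_le_right _ _
    have hsq : Real.sqrt h' * Real.sqrt h' = h' := Real.mul_self_sqrt hh0.le
    have hsH : Real.sqrt H * Real.sqrt H = H := Real.mul_self_sqrt hH0.le
    have hsH0 : 0 < Real.sqrt H := Real.sqrt_pos.2 hH0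
    have hsd : Real.sqrt (h' * δ) = Real.sqrt h' / Real.sqrt H := by
      rw [hδ, mul_one_div, Real.sqrt_div hh0.le]
    have hA : ω h' / (h' : ℝ) ^ 2 * (C₁ * Real.sqrt h') ≤
        (2 * Real.pi ^ 2 * δ) * (C₁ * Real.sqrt H) * (1 / (h' : ℝ)) := by
      have h2 : ω h' / (h' : ℝ) ^ 2 * (C₁ * Real.sqrt h') ≤
          4 * (Real.sqrt h' / Real.sqrt H) / (h' : ℝ) ^ 2 * (C₁ * Real.sqrt h') := by
        rw [← hsd]; gcongr
      refine h2.trans ?_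
      have h3 : 4 * (Real.sqrt h' / Real.sqrt H) / (h' : ℝ) ^ 2 * (C₁ * Real.sqrt h') =
          4 * C₁ * (1 / Real.sqrt H) * (1 / (h' : ℝ)) := by
        have : (h' : ℝ) ^ 2 = h' * (Real.sqrt h' * Real.sqrt h') := by rw [hsq]; ring
        rw [this]
        have h4 : 0 < Real.sqrt h' := Real.sqrt_pos.2 hh0
        field_simp
      have h5 : 1 / Real.sqrt H = δ * Real.sqrt H := by
        rw [hδ, div_mul_eq_mul_div, one_mul, div_eq_div_iff hsH0.ne' hH0.ne', one_mul, hsH]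
      rw [h3, h5]
      have h6 : 4 ≤ 2 * Real.pi ^ 2 := by nlinarith
      have h7 : 0 ≤ C₁ * (δ * Real.sqrt H) * (1 / (h' : ℝ)) := by positivity
      nlinarith
    have hB : ω h' / (h' : ℝ) ^ 2 * C₂ ≤
        (2 * Real.pi ^ 2 * δ) * C₂ * (1 / (h' : ℝ)) := by
      have h2 : ω h' / (h' : ℝ) ^ 2 * C₂ ≤ 2 * Real.pi * (h' * δ) / (h' : ℝ) ^ 2 * C₂ := by gcongr
      refine h2.trans ?_
      have h3 : 2 * Real.pi * (h' * δ) / (h' : ℝ) ^ 2 * C₂ =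
          2 * Real.pi * (δ * C₂ * (1 / (h' : ℝ))) := by field_simp
      rw [h3]
      have h7 : 0 ≤ δ * C₂ * (1 / (h' : ℝ)) := by positivity
      have h8 : 2 * Real.pi ≤ 2 * Real.pi ^ 2 := by nlinarith
      nlinarith
    have e1 : ω h' / (h' : ℝ) ^ 2 * (C₁ * Real.sqrt h' + C₂) =
      ω h' / (h' : ℝ) ^ 2 * (C₁ * Real.sqrt h') + ω h' / (h' : ℝ) ^ 2 * C₂ := by ring
    have e2 : (2 * Real.pi ^ 2 * δ) * (C₁ * Real.sqrt H + C₂) * (1 / (h' : ℝ)) =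
      (2 * Real.pi ^ 2 * δ) * (C₁ * Real.sqrt H) * (1 / (h' : ℝ)) +
      (2 * Real.pi ^ 2 * δ) * C₂ * (1 / (h' : ℝ)) := by ring
    rw [e1, e2]
    exact add_le_add hA hB
  have hsum := sum_le_sum hterm
  rw [← mul_sum] at hsum
  have hharm := harmonic_le (H ^ 2) (Nat.one_le_pow _ _ hH)
  have hlog : Real.log ((H ^ 2 : ℕ) : ℝ) = 2 * Real.log H := by
    push_cast; rw [Real.log_pow]; push_cast; ring
  rw [hlog] at hharm
  have hM0 : 0 ≤ (2 * Real.pi ^ 2 * δ) * (C₁ * Real.sqrt H + C₂) := by positivity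
  have hsum2 := hsum.trans (mul_le_mul_of_nonneg_left hharm hM0)
  have hc0 : (0 : ℝ) ≤ S.card := Nat.cast_nonneg _
  set W := ∑ h ∈ Icc 1 (H ^ 2), ω h / (h : ℝ) ^ 2 * ‖∑ n ∈ S, e (h * x n)‖ with hW
  have e3 : 1 / Real.pi ^ 2 * (W + 2 * S.card / ((H ^ 2 : ℕ) : ℝ)) / (2 * δ) =
      W / (2 * Real.pi ^ 2 * δ) + S.card / H * (1 / Real.pi ^ 2) := by
    rw [hδ]; push_cast; field_simp
  have e4 : W / (2 * Real.pi ^ 2 * δ) ≤ (C₁ * Real.sqrt H + C₂) * (1 + 2 * Real.log H) := by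
    rw [div_le_iff₀ (by positivity)]
    calc W ≤ (2 * Real.pi ^ 2 * δ) * (C₁ * Real.sqrt H + C₂) * (1 + 2 * Real.log H) := hsum2
      _ = _ := by ring
  have e5 : (S.card : ℝ) / H * (1 / Real.pi ^ 2) ≤ S.card / H * (1 / 2) := by
    refine mul_le_mul_of_nonneg_left ?_ (by positivity)
    apply one_div_le_one_div_of_le (by norm_num)
    nlinarith
  have e6 : (S.card : ℝ) * (δ / 2) = S.card / H * (1 / 2) := by
    rw [hδ]; field_simp
  rw [e3, e6]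
  linarith

end Pool.Agent.Helper46_SP
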