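import Mathlib
import Pool.Agent.R286.CU.K

/-! The second derivative test (van der Corput) for convex sequences and for `Z / (β + q m)`. -/

set_option autoImplicit false

open Finset

namespace Pool.Agent.Helper46_SP

open Pool.Agent.R286.CU (klx_set)
open Pool.Agent.H469R2.NK (e norm_e e_add e_nat)

/-- a set of naturals in which any two elements differ by at most `t` -/
lemma card_of_diam (K : Finset ℕ) (t : ℝ) (ht : 0 ≤ t)
    (h : ∀ i ∈ K, ∀ j ∈ K, i ≤ j → ((j : ℝ) - i) ≤ t) : (K.card : ℝ) ≤ t + 1 := by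
  rcases K.eq_empty_or_nonempty with h0 | hne
  · subst h0; simp; linarith
  · have h1 : K ⊆ Icc (K.min' hne) (K.max' hne) := by
      intro x hx
      rw [mem_Icc]
      exact ⟨K.min'_le _ hx, K.le_max' _ hx⟩
    have h2 := card_le_card h1
    rw [Nat.card_Icc] at h2
    have h3 : K.min' hne ≤ K.max' hne := K.min'_le _ (K.max'_mem hne)
    have h4 := h _ (K.min'_mem hne) _ (K.max'_mem hne) h3
    have h5 : K.card ≤ K.max' hne - K.min' hne + 1 := by omega
    have h6 : (K.card : ℝ) ≤ ((K.max' hne - K.min' hne + 1 : ℕ) : ℝ) := by exact_mod_cast h5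
    rw [Nat.cast_add, Nat.cast_sub h3, Nat.cast_one] at h6
    linarith

/-- second derivative test for a convex sequence whose increments lie in `[0, N)` -/
theorem second_test (x : ℕ → ℝ) (hmono : ∀ i j, i ≤ j → x (i + 1) - x i ≤ x (j + 1) - x j)
    (L N : ℕ) (lam : ℝ) (hlam : 0 < lam) (hlam1 : lam ≤ 1)
    (hstep : ∀ i j, i ≤ j → j < L → lam * ((j : ℝ) - i) ≤ (x (j + 1) - x j) - (x (i + 1) - x i))
    (hlow : ∀ j < L, 0 ≤ x (j + 1) - x j) (hup : ∀ j < L, x (j + 1) - x j < N) :
    ‖∑ j ∈ range L, e (x j)‖ ≤ 5 * ((N : ℝ) + 1) / Real.sqrt lam := by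
  set D := Real.sqrt lam with hD
  have hD0 : 0 < D := Real.sqrt_pos.2 hlam
  have hDD : D * D = lam := Real.mul_self_sqrt hlam.le
  have hD1 : D ≤ 1 := by rw [hD]; exact Real.sqrt_le_one.2 hlam1
  classical
  let J : ℕ → Finset ℕ := fun n => (range L).filter
    (fun j => (n : ℝ) + D ≤ x (j + 1) - x j ∧ x (j + 1) - x j ≤ n + 1 - D)
  let K : ℕ → Finset ℕ := fun n => (range L).filter
    (fun j => (n : ℝ) - D < x (j + 1) - x j ∧ x (j + 1) - x j < n + D)
  have hJ : ∀ n, ‖∑ j ∈ J n, e (x j)‖ ≤ 2 / D := by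
    intro n
    apply klx_set x hmono n D hD0 L (J n)
    intro j
    simp only [J, mem_filter, mem_range]
  have hK : ∀ n, ((K n).card : ℝ) ≤ 2 * D / lam + 1 := by
    intro n
    apply card_of_diam _ _ (by positivity)
    intro i hi j hj hij
    simp only [K, mem_filter, mem_range] at hi hj
    have h1 := hstep i j hij hj.1
    rw [le_div_iff₀ hlam]
    have h2 : lam * ((j : ℝ) - i) ≤ 2 * D := by linarith [hi.2.1, hj.2.2]
    linarith
  have hdisj : ∀ n ∈ range N, ∀ m ∈ range N, n ≠ m → Disjoint (J n) (J m) := by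
    intro n _ m _ hnm
    rw [disjoint_left]
    intro j hj hj'
    simp only [J, mem_filter, mem_range] at hj hj'
    rcases lt_or_gt_of_ne hnm with h | h
    · have : (n : ℝ) + 1 ≤ m := by exact_mod_cast h
      linarith [hj.2.2, hj'.2.1]
    · have : (m : ℝ) + 1 ≤ n := by exact_mod_cast h
      linarith [hj.2.1, hj'.2.2]
  set G := (range N).biUnion J with hG
  have hGsub : G ⊆ range L := by
    intro j hj
    rw [hG, mem_biUnion] at hj
    obtain ⟨n, _, h⟩ := hj
    exact filter_subset _ _ h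
  have hrest : range L \ G ⊆ (range (N + 1)).biUnion K := by
    intro j hj
    rw [mem_sdiff] at hj
    obtain ⟨hjL, hjG⟩ := hj
    have hjL' := mem_range.1 hjL
    have h0 := hlow j hjL'
    have h1 := hup j hjL'
    set d := x (j + 1) - x j with hd
    set n := ⌊d⌋₊ with hn
    have h2 : (n : ℝ) ≤ d := Nat.floor_le h0
    have h3 : d < n + 1 := Nat.lt_floor_add_one d
    have hnN : n < N := by
      have : (n : ℝ) < N := lt_of_le_of_lt h2 h1
      exact_mod_cast this
    rw [mem_biUnion]
    by_cases h4 : d < n + D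
    · refine ⟨n, mem_range.2 (by omega), ?_⟩
      simp only [K, mem_filter]
      exact ⟨hjL, by linarith, h4⟩
    · push Not at h4
      by_cases h5 : d ≤ n + 1 - D
      · exfalso
        apply hjG
        rw [hG, mem_biUnion]
        refine ⟨n, mem_range.2 hnN, ?_⟩
        simp only [J, mem_filter]
        exact ⟨hjL, h4, h5⟩
      · push Not at h5
        refine ⟨n + 1, mem_range.2 (by omega), ?_⟩
        simp only [K, mem_filter]
        push_cast
        exact ⟨hjL, by linarith, by linarith⟩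
  have hsum : ∑ j ∈ range L, e (x j) = ∑ n ∈ range N, ∑ j ∈ J n, e (x j) +
      ∑ j ∈ range L \ G, e (x j) := by
    rw [← sum_biUnion hdisj, ← hG, add_comm, sum_sdiff hGsub]
  rw [hsum]
  have h1 : ‖∑ n ∈ range N, ∑ j ∈ J n, e (x j)‖ ≤ N * (2 / D) := by
    refine (norm_sum_le _ _).trans ?_
    refine (sum_le_sum (fun n _ => hJ n)).trans ?_
    rw [sum_const, card_range, nsmul_eq_mul]
  have h2 : ‖∑ j ∈ range L \ G, e (x j)‖ ≤ (N + 1) * (2 * D / lam + 1) := by
    refine (norm_sum_le _ _).trans ?_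
    simp only [norm_e]
    rw [sum_const, nsmul_eq_mul, mul_one]
    have h3 := card_le_card hrest
    have h4 : ((range (N + 1)).biUnion K).card ≤ ∑ n ∈ range (N + 1), (K n).card :=
      card_biUnion_le
    have h5 : (((range L \ G).card : ℕ) : ℝ) ≤ ∑ n ∈ range (N + 1), ((K n).card : ℝ) := by
      exact_mod_cast h3.trans h4
    refine h5.trans ?_
    refine (sum_le_sum (fun n _ => hK n)).trans ?_
    rw [sum_const, card_range, nsmul_eq_mul]
    push_cast
    exact le_rfl
  refine (norm_add_le _ _).trans ?_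
  refine (add_le_add h1 h2).trans ?_
  have h3 : 2 * D / lam = 2 / D := by
    rw [← hDD]; field_simp
  have h4 : 1 ≤ 1 / D := by rw [le_div_iff₀ hD0]; linarith
  rw [h3]
  have hN0 : (0 : ℝ) ≤ N := Nat.cast_nonneg N
  have e1 : 5 * ((N : ℝ) + 1) / D = 5 * ((N : ℝ) + 1) * (1 / D) := by ring
  have e2 : (2 : ℝ) / D = 2 * (1 / D) := by ring
  rw [e1, e2]
  nlinarith [mul_le_mul_of_nonneg_left h4 (show (0:ℝ) ≤ N + 1 by linarith)]

/-- the product of consecutive members of an arithmetic progression -/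
lemma prod_diff (β q : ℝ) (i j : ℕ) :
    (β + q * j) * (β + q * (j + 1)) - (β + q * i) * (β + q * (i + 1)) =
      q * ((j : ℝ) - i) * (2 * β + q * (i + (j + 1))) := by ring

/-- van der Corput's bound for `∑ e(Z / (β + q m))` -/
theorem vdc_recip (Z : ℝ) (hZ : 0 < Z) (q : ℕ) (hq : 1 ≤ q) (β B : ℝ) (hB : 0 < B) (hβ : B ≤ β)
    (L : ℕ) (hL : β + q * L ≤ 5 * B) :
    ‖∑ j ∈ range L, e (Z / (β + q * j))‖ ≤
      250 * (Real.sqrt (Z / B) + Real.sqrt (B ^ 3 / Z)) := by
  have hq0 : (0 : ℝ) < q := by exact_mod_cast hq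
  have hq1 : (1 : ℝ) ≤ q := by exact_mod_cast hq
  have hβ0 : 0 < β := by linarith
  set lam : ℝ := 2 * Z * (q : ℝ) ^ 2 / (625 * B ^ 3) with hlam
  have hlam0 : 0 < lam := by positivity
  have hL' : (q : ℝ) * L ≤ 4 * B := by linarith
  have hLB : (L : ℝ) ≤ 4 * B / q := by rw [le_div_iff₀ hq0]; linarith
  have hsZB : 0 ≤ Real.sqrt (Z / B) := Real.sqrt_nonneg _
  have hsBZ : 0 ≤ Real.sqrt (B ^ 3 / Z) := Real.sqrt_nonneg _
  by_cases hl1 : 1 < lam
  · -- trivial bound
    have h1 : ‖∑ j ∈ range L, e (Z / (β + q * j))‖ ≤ L := by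
      refine (norm_sum_le _ _).trans ?_
      simp only [norm_e]
      rw [sum_const, card_range, nsmul_eq_mul, mul_one]
    have h2 : B / q ≤ Real.sqrt (Z / B) := by
      apply Real.le_sqrt_of_sq_le
      rw [hlam, lt_div_iff₀ (by positivity)] at hl1
      rw [div_pow, div_le_div_iff₀ (by positivity) hB]
      nlinarith [pow_pos hB 3]
    have h3 : 4 * B / q = 4 * (B / q) := by ring
    rw [h3] at hLB
    linarith
  · push Not at hl1
    set R : ℕ := ⌈Z * q / B ^ 2⌉₊ with hR
    have hR1 : Z * q / B ^ 2 ≤ R := Nat.le_ceil _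
    have hR2 : (R : ℝ) < Z * q / B ^ 2 + 1 := Nat.ceil_lt_add_one (by positivity)
    set x : ℕ → ℝ := fun j => Z / (β + q * j) + (R * j : ℕ) with hx
    have hxe : ∀ j, e (x j) = e (Z / (β + q * j)) := by
      intro j
      simp only [hx]
      rw [e_add, e_nat, mul_one]
    have hpos : ∀ j : ℕ, 0 < β + q * (j : ℝ) := fun j => by positivity
    have hpos1 : ∀ j : ℕ, 0 < β + q * ((j : ℝ) + 1) := fun j => by positivity
    have hinc : ∀ j : ℕ, x (j + 1) - x j = R - Z * q / ((β + q * j) * (β + q * (j + 1))) := by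
      intro j
      simp only [hx]
      have h1 := (hpos j).ne'
      have h2 := (hpos1 j).ne'
      push_cast
      field_simp
      ring
    have hBle : ∀ j : ℕ, B ≤ β + q * (j : ℝ) := fun j => by
      have : 0 ≤ q * (j : ℝ) := by positivity
      linarith
    have hmono : ∀ i j, i ≤ j → x (i + 1) - x i ≤ x (j + 1) - x j := by
      intro i j hij
      rw [hinc i, hinc j]
      have hij' : (i : ℝ) ≤ j := by exact_mod_cast hij
      have h1 : (β + q * i) * (β + q * ((i : ℝ) + 1)) ≤ (β + q * j) * (β + q * ((j : ℝ) + 1)) := by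
        apply mul_le_mul
        · have := mul_le_mul_of_nonneg_left hij' hq0.le
          linarith
        · have := mul_le_mul_of_nonneg_left hij' hq0.le
          linarith
        · exact (hpos1 i).le
        · exact (hpos j).le
      have h2 := div_le_div_of_nonneg_left (show 0 ≤ Z * q by positivity)
        (mul_pos (hpos i) (hpos1 i)) h1
      linarith
    have hstep : ∀ i j, i ≤ j → j < L →
        lam * ((j : ℝ) - i) ≤ (x (j + 1) - x j) - (x (i + 1) - x i) := by
      intro i j hij hjL
      rw [hinc i, hinc j]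
      have hij' : (i : ℝ) ≤ j := by exact_mod_cast hij
      have hjL' : (j : ℝ) + 1 ≤ L := by exact_mod_cast hjL
      set P1 := (β + q * (i : ℝ)) * (β + q * ((i : ℝ) + 1)) with hP1
      set P2 := (β + q * (j : ℝ)) * (β + q * ((j : ℝ) + 1)) with hP2
      have hP10 : 0 < P1 := mul_pos (hpos i) (hpos1 i)
      have hP20 : 0 < P2 := mul_pos (hpos j) (hpos1 j)
      have hle : ∀ t : ℝ, t ≤ L → β + q * t ≤ 5 * B := fun t ht => by
        have := mul_le_mul_of_nonneg_left ht hq0.le
        linarith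
      have hP1' : P1 ≤ 25 * B ^ 2 := by
        have h1 := hle i (by linarith)
        have h2 := hle (i + 1) (by linarith)
        have := mul_le_mul h1 h2 (hpos1 i).le (by positivity)
        rw [hP1]; linarith
      have hP2' : P2 ≤ 25 * B ^ 2 := by
        have h1 := hle j (by linarith)
        have h2 := hle (j + 1) (by linarith)
        have := mul_le_mul h1 h2 (hpos1 j).le (by positivity)
        rw [hP2]; linarith
      have hdiff : 2 * B * q * ((j : ℝ) - i) ≤ P2 - P1 := by
        rw [hP1, hP2, prod_diff]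
        have h1 : 0 ≤ q * ((j : ℝ) - i) := mul_nonneg hq0.le (by linarith)
        have h2 : 2 * B ≤ 2 * β + q * ((i : ℝ) + (j + 1)) := by
          have : 0 ≤ q * ((i : ℝ) + (j + 1)) := by positivity
          linarith
        have := mul_le_mul_of_nonneg_left h2 h1
        linarith
      have e1 : (R : ℝ) - Z * q / P2 - (R - Z * q / P1) = Z * q * (P2 - P1) / (P1 * P2) := by
        field_simp
        ring
      rw [e1, hlam]
      have h3 : P1 * P2 ≤ 625 * B ^ 4 := by
        have := mul_le_mul hP1' hP2' hP20.le (by positivity)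
        nlinarith
      have h4 : 0 ≤ P2 - P1 := le_trans (mul_nonneg (by positivity) (by linarith)) hdiff
      calc 2 * Z * (q : ℝ) ^ 2 / (625 * B ^ 3) * ((j : ℝ) - i)
          = Z * q * (2 * B * q * ((j : ℝ) - i)) / (625 * B ^ 4) := by field_simp
        _ ≤ Z * q * (P2 - P1) / (625 * B ^ 4) := by gcongr
        _ ≤ Z * q * (P2 - P1) / (P1 * P2) := by
            apply div_le_div_of_nonneg_left (mul_nonneg (by positivity) h4) (by positivity) h3
    have hlow : ∀ j < L, 0 ≤ x (j + 1) - x j := by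
      intro j _
      rw [hinc j]
      have h1 : B ^ 2 ≤ (β + q * j) * (β + q * ((j : ℝ) + 1)) := by
        have h2 := hBle j
        have h3 := hBle (j + 1)
        push_cast at h3
        nlinarith
      have h2 := div_le_div_of_nonneg_left (show 0 ≤ Z * q by positivity) (by positivity) h1
      linarith
    have hup : ∀ j < L, x (j + 1) - x j < R := by
      intro j _
      rw [hinc j]
      have : 0 < Z * q / ((β + q * j) * (β + q * ((j : ℝ) + 1))) :=
        div_pos (by positivity) (mul_pos (hpos j) (hpos1 j))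
      linarith
    have hmain := second_test x hmono L R lam hlam0 hl1 hstep hlow hup
    simp only [hxe] at hmain
    refine hmain.trans ?_
    have hslam : Real.sqrt lam = q * Real.sqrt 2 * Real.sqrt (Z / B ^ 3) / 25 := by
      have : lam = (q : ℝ) ^ 2 * 2 * (Z / B ^ 3) / 25 ^ 2 := by rw [hlam]; ring
      rw [this, Real.sqrt_div (by positivity), Real.sqrt_mul (by positivity),
        Real.sqrt_mul (by positivity), Real.sqrt_sq hq0.le, Real.sqrt_sq (by norm_num)]
    have hs2 : 1 ≤ Real.sqrt 2 := by rw [Real.one_le_sqrt]; norm_num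
    have hsz : 0 < Real.sqrt (Z / B ^ 3) := Real.sqrt_pos.2 (by positivity)
    have hge : q * Real.sqrt (Z / B ^ 3) / 25 ≤ Real.sqrt lam := by
      rw [hslam]
      have := mul_le_mul_of_nonneg_left hs2 (show 0 ≤ q * Real.sqrt (Z / B ^ 3) by positivity)
      nlinarith
    have hR3 : (R : ℝ) + 1 ≤ Z * q / B ^ 2 + 2 := by linarith
    have h5 : 5 * ((R : ℝ) + 1) / Real.sqrt lam ≤
        5 * (Z * q / B ^ 2 + 2) / (q * Real.sqrt (Z / B ^ 3) / 25) := by
      apply div_le_div₀ (by positivity) (by linarith) (by positivity) hge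
    refine h5.trans ?_
    have hr1 : Z * q / B ^ 2 / (q * Real.sqrt (Z / B ^ 3)) = Real.sqrt (Z / B) := by
      have h6 : Z / B ^ 2 = Real.sqrt (Z / B) * Real.sqrt (Z / B ^ 3) := by
        rw [← Real.sqrt_mul (by positivity)]
        have : Z / B * (Z / B ^ 3) = (Z / B ^ 2) ^ 2 := by field_simp
        rw [this, Real.sqrt_sq (by positivity)]
      have h7 : Z * q / B ^ 2 = (Z / B ^ 2) * q := by ring
      rw [h7, h6]
      field_simp
    have hr2 : 1 / Real.sqrt (Z / B ^ 3) = Real.sqrt (B ^ 3 / Z) := by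
      rw [one_div, ← Real.sqrt_inv, inv_div]
    have e3 : 5 * (Z * q / B ^ 2 + 2) / (q * Real.sqrt (Z / B ^ 3) / 25) =
        125 * (Z * q / B ^ 2 / (q * Real.sqrt (Z / B ^ 3))) +
          250 / q * (1 / Real.sqrt (Z / B ^ 3)) := by
      field_simp
      ring
    rw [e3, hr1, hr2]
    have h8 : 250 / (q : ℝ) ≤ 250 := by
      rw [div_le_iff₀ hq0]; linarith
    have h9 := mul_le_mul_of_nonneg_right h8 hsBZ
    linarith

end Pool.Agent.Helper46_SP
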