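import Mathlib
import Pool.Agent.Helper46_SP.Vdc2
import Pool.Agent.Helper46_SP.Saw
import Pool.Agent.Helper46_SS.Count

/-! Counting multiples of `E (u + Q m)` in a short interval, on average over `m`. -/

set_option autoImplicit false

open Finset

namespace Pool.Agent.Helper46_SP

open Pool.Agent.H469R2.NK (e norm_e e_add e_nat)
open Pool.Agent.Helper46_SS (cnt cnt_eq)

/-- one dyadic block -/
lemma block_saw (X : ℝ) (hX : 0 < X) (Q u M M' H : ℕ) (hQ : 1 ≤ Q) (hu : u ≤ Q) (hM : 1 ≤ M)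
    (hMM : M ≤ M') (hM' : M' ≤ 2 * M) (hH : 1 ≤ H) :
    |∑ m ∈ Ioc M M', (Int.fract (X / ((u : ℝ) + Q * m)) - 1 / 2)| ≤
      (M : ℝ) / H + 250 * (Real.sqrt (H * X / (Q * M)) + Real.sqrt ((Q * M : ℝ) ^ 3 / X)) *
        (1 + 2 * Real.log H) := by
  have hQ0 : (0 : ℝ) < Q := by exact_mod_cast hQ
  have hM0 : (0 : ℝ) < M := by exact_mod_cast hM
  have hH0 : (0 : ℝ) < H := by exact_mod_cast hH
  set B : ℝ := Q * M with hB
  have hB0 : 0 < B := by positivity
  have hu0 : (0 : ℝ) ≤ u := Nat.cast_nonneg u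
  have hexp : ∀ h : ℕ, 1 ≤ h → ‖∑ m ∈ Ioc M M', e (h * (X / ((u : ℝ) + Q * m)))‖ ≤
      (250 * Real.sqrt (X / B)) * Real.sqrt h + 250 * Real.sqrt (B ^ 3 / X) := by
    intro h hh
    have hh0 : (0 : ℝ) < h := by exact_mod_cast hh
    have hh1 : (1 : ℝ) ≤ h := by exact_mod_cast hh
    have h1 : ∑ m ∈ Ioc M M', e (h * (X / ((u : ℝ) + Q * m))) =
        ∑ j ∈ range (M' - M), e ((h * X) / (((u : ℝ) + Q * (M + 1)) + Q * j)) := by
      have h2 : Ioc M M' = Ico (M + 1) (M + 1 + (M' - M)) := by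
        ext a; rw [mem_Ioc, mem_Ico]; omega
      rw [h2, sum_Ico_eq_sum_range]
      have h3 : M + 1 + (M' - M) - (M + 1) = M' - M := by omega
      rw [h3]
      apply sum_congr rfl
      intro j _
      congr 1
      push_cast
      rw [mul_div_assoc]
      congr 2
      ring
    rw [h1]
    have h4 : ((u : ℝ) + Q * (M + 1)) + Q * ((M' - M : ℕ) : ℝ) ≤ 5 * B := by
      rw [Nat.cast_sub hMM, hB]
      have h5 : (M' : ℝ) ≤ 2 * M := by exact_mod_cast hM'
      have h6 : (u : ℝ) ≤ Q := by exact_mod_cast hu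
      have h7 : (1 : ℝ) ≤ M := by exact_mod_cast hM
      nlinarith
    have h8 := vdc_recip (h * X) (by positivity) Q hQ ((u : ℝ) + Q * (M + 1)) B hB0
      (by rw [hB]; nlinarith) (M' - M) h4
    refine h8.trans ?_
    have h9 : Real.sqrt (h * X / B) = Real.sqrt h * Real.sqrt (X / B) := by
      rw [mul_div_assoc, Real.sqrt_mul hh0.le]
    have h10 : Real.sqrt (B ^ 3 / (h * X)) ≤ Real.sqrt (B ^ 3 / X) := by
      apply Real.sqrt_le_sqrt
      apply div_le_div_of_nonneg_left (by positivity) hX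
      nlinarith
    rw [h9]
    linarith
  have hmain := saw_main (Ioc M M') (fun m : ℕ => X / ((u : ℝ) + Q * m)) H hH
    (250 * Real.sqrt (X / B)) (250 * Real.sqrt (B ^ 3 / X)) (by positivity) (by positivity) hexp
  refine hmain.trans ?_
  have hc : ((Ioc M M').card : ℝ) ≤ M := by
    rw [Nat.card_Ioc]
    have : M' - M ≤ M := by omega
    exact_mod_cast this
  have h11 : ((Ioc M M').card : ℝ) / H ≤ M / H := by gcongr
  have h12 : 250 * Real.sqrt (X / B) * Real.sqrt H = 250 * Real.sqrt (H * X / B) := by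
    rw [mul_div_assoc, Real.sqrt_mul hH0.le]; ring
  rw [h12]
  have h13 : 250 * Real.sqrt (H * X / B) + 250 * Real.sqrt (B ^ 3 / X) =
    250 * (Real.sqrt (H * X / B) + Real.sqrt (B ^ 3 / X)) := by ring
  rw [h13]
  linarith

/-- from dyadic blocks to long ranges -/
lemma doubling (f : ℕ → ℝ) (E : ℝ) (μ μ' : ℕ)
    (h : ∀ M M', μ ≤ M → M ≤ M' → M' ≤ 2 * M → M' ≤ μ' → |∑ m ∈ Ioc M M', f m| ≤ E) (t : ℕ) :
    ∀ ν : ℕ, μ ≤ ν → ν ≤ μ' → ν ≤ 2 ^ t * μ → |∑ m ∈ Ioc μ ν, f m| ≤ t * E := by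
  induction t with
  | zero =>
    intro ν h1 _ h3
    have : ν = μ := by omega
    subst this
    simp
  | succ t ih =>
    intro ν h1 h2 h3
    set M := min ν (2 ^ t * μ) with hM
    have hMμ : μ ≤ M := by
      rw [hM]
      apply le_min h1
      have : 1 ≤ 2 ^ t := Nat.one_le_two_pow
      nlinarith
    have hMν : M ≤ ν := min_le_left _ _
    have hν : ν ≤ 2 * M := by
      rw [hM]
      rcases min_choice ν (2 ^ t * μ) with h4 | h4
      · rw [h4]; omega
      · rw [h4]; rw [pow_succ] at h3; linarith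
    have h5 := ih M hMμ (hMν.trans h2) (min_le_right _ _)
    have h6 := h M ν hMμ hMν hν h2
    have h7 : ∑ m ∈ Ioc μ ν, f m = ∑ m ∈ Ioc μ M, f m + ∑ m ∈ Ioc M ν, f m := by
      rw [sum_Ioc_consecutive f hMμ hMν]
    rw [h7]
    refine (abs_add_le _ _).trans ?_
    push_cast
    linarith

/-- the harmonic sum along a progression -/
lemma harm_ap (Q u : ℕ) (hQ : 1 ≤ Q) (μ μ' : ℕ) (hμ : 1 ≤ μ) (hμμ : μ ≤ μ') :
    (Real.log ((u : ℝ) + Q * (μ' + 1)) - Real.log ((u : ℝ) + Q * (μ + 1))) / Q ≤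
      ∑ m ∈ Ioc μ μ', 1 / ((u : ℝ) + Q * m) ∧
    ∑ m ∈ Ioc μ μ', 1 / ((u : ℝ) + Q * m) ≤
      (Real.log ((u : ℝ) + Q * μ') - Real.log ((u : ℝ) + Q * μ)) / Q := by
  have hQ0 : (0 : ℝ) < Q := by exact_mod_cast hQ
  have hu0 : (0 : ℝ) ≤ u := Nat.cast_nonneg u
  obtain ⟨s, rfl⟩ := Nat.exists_eq_add_of_le hμμ
  induction s with
  | zero => simp
  | succ s ih =>
    have ih' := ih (by omega)
    have h1 : Ioc μ (μ + (s + 1)) = insert (μ + s + 1) (Ioc μ (μ + s)) := by
      ext x; simp only [mem_Ioc, mem_insert]; omega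
    have h2 : (μ + s + 1) ∉ Ioc μ (μ + s) := by simp
    rw [h1, sum_insert h2]
    set d : ℝ := (u : ℝ) + Q * ((μ + s + 1 : ℕ) : ℝ) with hd
    have hd0 : 0 < d := by rw [hd]; positivity
    have hdQ : 0 < d - Q := by
      have hμ0 : (0 : ℝ) < μ := by exact_mod_cast hμ
      rw [hd]; push_cast
      have : 0 < Q * (μ : ℝ) := by positivity
      have : 0 ≤ Q * (s : ℝ) := by positivity
      linarith
    have hA : Real.log (d + Q) - Real.log d ≤ Q / d := by
      rw [← Real.log_div (by positivity) hd0.ne']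
      have h3 := Real.log_le_sub_one_of_pos (show 0 < (d + Q) / d by positivity)
      have : (d + Q) / d - 1 = Q / d := by field_simp; ring
      linarith
    have hB : Q / d ≤ Real.log d - Real.log (d - Q) := by
      have h3 := Real.log_le_sub_one_of_pos (show 0 < (d - Q) / d by positivity)
      rw [Real.log_div hdQ.ne' hd0.ne'] at h3
      have : (d - Q) / d - 1 = -(Q / d) := by field_simp; ring
      linarith
    have e1 : (u : ℝ) + Q * (((μ + s : ℕ) : ℝ) + 1) = d := by rw [hd]; push_cast; ring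
    have e2 : (u : ℝ) + Q * (((μ + (s + 1) : ℕ) : ℝ) + 1) = d + Q := by rw [hd]; push_cast; ring
    have e3 : (u : ℝ) + Q * ((μ + (s + 1) : ℕ) : ℝ) = d := by rw [hd]; push_cast; ring
    have e4 : (u : ℝ) + Q * ((μ + s : ℕ) : ℝ) = d - Q := by rw [hd]; push_cast; ring
    rw [e1, e4] at ih'
    rw [e2, e3]
    have hA' : (Real.log (d + Q) - Real.log d) / Q ≤ 1 / d := by
      rw [div_le_div_iff₀ hQ0 hd0, one_mul]
      rw [le_div_iff₀ hd0] at hA
      linarith
    have hB' : 1 / d ≤ (Real.log d - Real.log (d - Q)) / Q := by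
      rw [div_le_div_iff₀ hd0 hQ0, one_mul]
      rw [div_le_iff₀ hd0] at hB
      linarith
    constructor
    · have h5 := ih'.1
      have e5 : (Real.log (d + Q) - Real.log ((u : ℝ) + Q * (μ + 1))) / Q =
        (Real.log (d + Q) - Real.log d) / Q +
          (Real.log d - Real.log ((u : ℝ) + Q * (μ + 1))) / Q := by ring
      rw [e5]; linarith
    · have h5 := ih'.2
      have e5 : (Real.log d - Real.log ((u : ℝ) + Q * μ)) / Q =
        (Real.log d - Real.log (d - Q)) / Q +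
          (Real.log (d - Q) - Real.log ((u : ℝ) + Q * μ)) / Q := by ring
      rw [e5]; linarith

/-- the count of multiples through fractional parts -/
lemma cnt_fract (n k d : ℕ) (hd : 1 ≤ d) : (cnt n k d : ℝ) =
    (k : ℝ) / d - (Int.fract (((n + k : ℕ) : ℝ) / d) - 1 / 2) +
      (Int.fract ((n : ℝ) / d) - 1 / 2) := by
  have hd0 : (0 : ℝ) < d := by exact_mod_cast hd
  have h1 : ∀ N : ℕ, ((N / d : ℕ) : ℝ) = (N : ℝ) / d - Int.fract ((N : ℝ) / d) := by
    intro N
    rw [Int.self_sub_fract]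
    have h2 : ⌊(N : ℝ) / d⌋ = ((⌊(N : ℝ) / d⌋₊ : ℕ) : ℤ) := (Int.natCast_floor_eq_floor (by positivity)).symm
    have h3 : ⌊(N : ℝ) / d⌋₊ = N / d := by
      rw [Nat.floor_div_natCast, Nat.floor_natCast]
    rw [h2, h3, Int.cast_natCast]
  rw [cnt_eq, Nat.cast_sub (Nat.div_le_div_right (by omega)), h1, h1]
  push_cast
  ring

end Pool.Agent.Helper46_SP
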