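import Mathlib
import Pool.Agent.Helper46_SP.SawSum

/-! Counting multiples of `a * D * (u + Q m)` in a short interval, summed over `m`. -/

set_option autoImplicit false

open Finset

namespace Pool.Agent.Helper46_SP

open Pool.Agent.Helper46_SS (cnt cnt_eq)

/-- position of the end point of a progression -/
def mu (D Q u B : ℕ) : ℕ := (B / D - u) / Q

lemma mu_spec (D Q u B : ℕ) (hD : 1 ≤ D) (hQ : 1 ≤ Q) (hu : u ≤ B / D) :
    (u + Q * mu D Q u B) * D ≤ B ∧ B < (u + Q * (mu D Q u B + 1)) * D := by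
  unfold mu
  have h1 : Q * ((B / D - u) / Q) ≤ B / D - u := Nat.mul_div_le _ _
  have h2 : B / D - u < Q * ((B / D - u) / Q + 1) := Nat.lt_mul_div_succ _ (by omega)
  constructor
  · rw [← Nat.le_div_iff_mul_le (by omega)]; omega
  · rw [← Nat.div_lt_iff_lt_mul (by omega)]; omega

/-- the main estimate for one value of `a` and one value of `D` -/
theorem core (n k a D Q u B₁ B₂ H t : ℕ) (ha : 1 ≤ a) (hD : 1 ≤ D) (hQ : 1 ≤ Q) (hu : u < Q)
    (hB₁ : 4 * Q * D ≤ B₁) (hB : B₁ ≤ B₂) (hk : k ≤ n) (hn : 1 ≤ n) (hH : 1 ≤ H)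
    (ht : 2 * B₂ ≤ 2 ^ t * B₁) :
    |∑ m ∈ Ioc (mu D Q u B₁) (mu D Q u B₂), (cnt n k (a * D * (u + Q * m)) : ℝ) -
        (k : ℝ) / (a * Q) * Real.log ((B₂ : ℝ) / B₁) * (1 / D)| ≤
      2 * k / (a * B₁) + 2 * t * ((B₂ : ℝ) / H + 250 * (Real.sqrt (4 * H * n / (a * B₁)) +
        Real.sqrt ((B₂ : ℝ) ^ 3 * a / n)) * (1 + 2 * Real.log H)) := by
  set μ := mu D Q u B₁ with hμd
  set μ' := mu D Q u B₂ with hμd'
  have hQ0 : (0 : ℝ) < Q := by exact_mod_cast hQ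
  have hD0 : (0 : ℝ) < D := by exact_mod_cast hD
  have hD1 : (1 : ℝ) ≤ D := by exact_mod_cast hD
  have ha0 : (0 : ℝ) < a := by exact_mod_cast ha
  have hH0 : (0 : ℝ) < H := by exact_mod_cast hH
  have hH1 : (1 : ℝ) ≤ H := by exact_mod_cast hH
  have hn0 : (0 : ℝ) < n := by exact_mod_cast hn
  have hu0 : (0 : ℝ) ≤ u := Nat.cast_nonneg u
  have hk0 : (0 : ℝ) ≤ k := Nat.cast_nonneg k
  have hkn : (k : ℝ) ≤ n := by exact_mod_cast hk
  have hQ1 : (1 : ℝ) ≤ Q := by exact_mod_cast hQ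
  have huQ : (u : ℝ) + 1 ≤ Q := by exact_mod_cast hu
  have hB1r : 4 * (Q : ℝ) * D ≤ B₁ := by exact_mod_cast hB₁
  have hBr : (B₁ : ℝ) ≤ B₂ := by exact_mod_cast hB
  have hB10 : (0 : ℝ) < B₁ := lt_of_lt_of_le (by positivity) hB1r
  have hB20 : (0 : ℝ) < B₂ := lt_of_lt_of_le hB10 hBr
  have hlogH : 0 ≤ Real.log H := Real.log_nonneg hH1
  have hu1 : u ≤ B₁ / D := by
    rw [Nat.le_div_iff_mul_le (by omega)]
    nlinarith
  have hu2 : u ≤ B₂ / D := hu1.trans (Nat.div_le_div_right hB)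
  obtain ⟨s1, s2⟩ := mu_spec D Q u B₁ hD hQ hu1
  obtain ⟨s3, s4⟩ := mu_spec D Q u B₂ hD hQ hu2
  rw [← hμd] at s1 s2
  rw [← hμd'] at s3 s4
  have r1 : ((u : ℝ) + Q * μ) * D ≤ B₁ := by exact_mod_cast s1
  have r2 : (B₁ : ℝ) < ((u : ℝ) + Q * (μ + 1)) * D := by exact_mod_cast s2
  have r3 : ((u : ℝ) + Q * μ') * D ≤ B₂ := by exact_mod_cast s3
  have r4 : (B₂ : ℝ) < ((u : ℝ) + Q * (μ' + 1)) * D := by exact_mod_cast s4
  -- bounds for `Q μ` and `Q μ'`
  have f1 : (B₁ : ℝ) / (2 * D) ≤ Q * μ := by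
    rw [div_le_iff₀ (by positivity)]
    have e0 : (u : ℝ) * D ≤ (Q - 1) * D := mul_le_mul_of_nonneg_right (by linarith) hD0.le
    linarith
  have f2 : (Q : ℝ) * μ' ≤ B₂ / D := by
    rw [le_div_iff₀ hD0]
    have e0 : 0 ≤ (u : ℝ) * D := by positivity
    linarith
  have hμ1 : 1 ≤ μ := by
    by_contra h0
    have h1 : μ = 0 := by omega
    rw [h1] at f1
    have : 0 < (B₁ : ℝ) / (2 * D) := by positivity
    simp at f1
    linarith
  have hμμ : μ ≤ μ' := by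
    rw [hμd, hμd']; unfold mu
    apply Nat.div_le_div_right
    have := Nat.div_le_div_right (c := D) hB
    omega
  have ht' : μ' ≤ 2 ^ t * μ := by
    have h1 : 2 * (B₂ : ℝ) ≤ 2 ^ t * B₁ := by exact_mod_cast ht
    have h2 : (Q : ℝ) * μ' ≤ 2 ^ t * (Q * μ) := by
      refine f2.trans ?_
      have h3 : (2 : ℝ) ^ t * (B₁ / (2 * D)) ≤ 2 ^ t * (Q * μ) := by gcongr
      refine le_trans ?_ h3
      rw [div_le_iff₀ hD0]
      have h4 : (2 : ℝ) ^ t * (B₁ / (2 * D)) * D = 2 ^ t * B₁ / 2 := by field_simp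
      rw [h4]; linarith
    have h3 : (μ' : ℝ) ≤ 2 ^ t * μ := by
      have h4 : (Q : ℝ) * μ' ≤ Q * (2 ^ t * μ) := by linarith
      exact le_of_mul_le_mul_left h4 hQ0
    exact_mod_cast h3
  -- split into main term and sawtooth sums
  have hsplit : ∑ m ∈ Ioc μ μ', (cnt n k (a * D * (u + Q * m)) : ℝ) =
      (k : ℝ) / (a * D) * ∑ m ∈ Ioc μ μ', 1 / ((u : ℝ) + Q * m) -
        ∑ m ∈ Ioc μ μ', (Int.fract ((((n + k : ℕ) : ℝ) / (a * D)) / ((u : ℝ) + Q * m)) - 1 / 2) +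
        ∑ m ∈ Ioc μ μ', (Int.fract (((n : ℝ) / (a * D)) / ((u : ℝ) + Q * m)) - 1 / 2) := by
    rw [mul_sum, ← sum_sub_distrib, ← sum_add_distrib]
    apply sum_congr rfl
    intro m hm
    rw [mem_Ioc] at hm
    have h1 : 1 ≤ a * D * (u + Q * m) := by
      have : 1 ≤ u + Q * m := by
        have : 1 ≤ Q * m := Nat.mul_pos (by omega) (by omega)
        omega
      have : 1 ≤ a * D := Nat.mul_pos (by omega) (by omega)
      nlinarith
    rw [cnt_fract n k _ h1]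
    have h2 : ((a * D * (u + Q * m) : ℕ) : ℝ) = (a * D : ℝ) * ((u : ℝ) + Q * m) := by push_cast; ring
    rw [h2]
    have h3 : (k : ℝ) / ((a * D : ℝ) * ((u : ℝ) + Q * m)) =
        (k : ℝ) / (a * D) * (1 / ((u : ℝ) + Q * m)) := by
      rw [div_mul_div_comm, mul_one]
    have h4 : ((n + k : ℕ) : ℝ) / ((a * D : ℝ) * ((u : ℝ) + Q * m)) =
        ((n + k : ℕ) : ℝ) / (a * D) / ((u : ℝ) + Q * m) := by rw [div_div]
    have h5 : (n : ℝ) / ((a * D : ℝ) * ((u : ℝ) + Q * m)) =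
        (n : ℝ) / (a * D) / ((u : ℝ) + Q * m) := by rw [div_div]
    rw [h3, h4, h5]
  -- the sawtooth sums
  set E : ℝ := (B₂ : ℝ) / H + 250 * (Real.sqrt (4 * H * n / (a * B₁)) +
        Real.sqrt ((B₂ : ℝ) ^ 3 * a / n)) * (1 + 2 * Real.log H) with hE
  have hsaw : ∀ X : ℝ, (n : ℝ) / (a * D) ≤ X → X ≤ 2 * (n : ℝ) / (a * D) →
      |∑ m ∈ Ioc μ μ', (Int.fract (X / ((u : ℝ) + Q * m)) - 1 / 2)| ≤ t * E := by
    intro X hX1 hX2
    have hX0 : 0 < X := lt_of_lt_of_le (by positivity) hX1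
    apply doubling _ E μ μ' _ t μ' hμμ le_rfl ht'
    intro M M' hM hMM hM2 hM3
    have hM1 : 1 ≤ M := hμ1.trans hM
    have hb := block_saw X hX0 Q u M M' H hQ hu.le hM1 hMM hM2 hH
    refine hb.trans ?_
    have hM0 : (0 : ℝ) < M := by exact_mod_cast hM1
    have hMr : (μ : ℝ) ≤ M := by exact_mod_cast hM
    have hMr' : (M : ℝ) ≤ μ' := by exact_mod_cast hMM.trans hM3
    have g1 : (B₁ : ℝ) / (2 * D) ≤ Q * M := f1.trans (by gcongr)
    have g2 : (Q : ℝ) * M ≤ B₂ / D := le_trans (by gcongr) f2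
    have g3 : (B₂ : ℝ) / D ≤ B₂ := div_le_self hB20.le hD1
    have g4 : (M : ℝ) ≤ B₂ := by
      have : 1 * (M : ℝ) ≤ Q * M := by gcongr
      linarith
    have e1 : (M : ℝ) / H ≤ B₂ / H := by gcongr
    have e2 : Real.sqrt (H * X / (Q * M)) ≤ Real.sqrt (4 * H * n / (a * B₁)) := by
      apply Real.sqrt_le_sqrt
      calc H * X / (Q * M) ≤ H * (2 * (n : ℝ) / (a * D)) / ((B₁ : ℝ) / (2 * D)) := by
            gcongr
        _ = 4 * H * n / (a * B₁) := by field_simp; ring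
    have e3 : Real.sqrt ((Q * M : ℝ) ^ 3 / X) ≤ Real.sqrt ((B₂ : ℝ) ^ 3 * a / n) := by
      apply Real.sqrt_le_sqrt
      calc (Q * M : ℝ) ^ 3 / X ≤ ((B₂ : ℝ) / D) ^ 3 / ((n : ℝ) / (a * D)) := by gcongr
        _ = (B₂ : ℝ) ^ 3 * a / n * (1 / D) ^ 2 := by field_simp
        _ ≤ (B₂ : ℝ) ^ 3 * a / n * 1 := by
            have : (1 / (D : ℝ)) ^ 2 ≤ 1 := by
              apply pow_le_one₀ (by positivity)
              rw [div_le_one hD0]; exact hD1
            gcongr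
        _ = (B₂ : ℝ) ^ 3 * a / n := mul_one _
    have e4 : 0 ≤ 1 + 2 * Real.log H := by linarith
    calc (M : ℝ) / H + 250 * (Real.sqrt (H * X / (Q * M)) + Real.sqrt ((Q * M : ℝ) ^ 3 / X)) *
          (1 + 2 * Real.log H) ≤ (B₂ : ℝ) / H + 250 * (Real.sqrt (4 * H * n / (a * B₁)) +
          Real.sqrt ((B₂ : ℝ) ^ 3 * a / n)) * (1 + 2 * Real.log H) := by gcongr
      _ = E := rfl
  have hs1 := hsaw ((((n + k : ℕ) : ℝ) / (a * D))) (by push_cast; gcongr; linarith)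
    (by push_cast; gcongr; linarith)
  have hs2 := hsaw ((n : ℝ) / (a * D)) le_rfl (by gcongr; linarith)
  -- the main term
  have hmain : |∑ m ∈ Ioc μ μ', 1 / ((u : ℝ) + Q * m) - 1 / Q * Real.log ((B₂ : ℝ) / B₁)| ≤
      2 * D / B₁ := by
    obtain ⟨l1, l2⟩ := harm_ap Q u hQ μ μ' hμ1 hμμ
    have hμ0 : (0 : ℝ) < μ := by exact_mod_cast hμ1
    have hμ0' : (0 : ℝ) ≤ μ' := Nat.cast_nonneg _
    have p1 : 0 < (u : ℝ) + Q * μ := by positivity
    have p2 : 0 < (u : ℝ) + Q * (μ' + 1) := by positivity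
    have p3 : 0 < (u : ℝ) + Q * μ' := by
      have h1 : (μ : ℝ) ≤ μ' := by exact_mod_cast hμμ
      have h2 : (Q : ℝ) * μ ≤ Q * μ' := by gcongr
      linarith
    -- the four logarithms
    have q1 : Real.log (B₂ / D) ≤ Real.log ((u : ℝ) + Q * (μ' + 1)) := by
      apply Real.log_le_log (by positivity)
      rw [div_le_iff₀ hD0]; exact r4.le
    have q2 : Real.log ((u : ℝ) + Q * μ') ≤ Real.log (B₂ / D) := by
      apply Real.log_le_log p3
      rw [le_div_iff₀ hD0]; exact r3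
    have q3 : Real.log ((u : ℝ) + Q * (μ + 1)) ≤ Real.log (B₁ / D) + Q * D / B₁ := by
      have h1 : (u : ℝ) + Q * (μ + 1) ≤ B₁ / D * (1 + Q * D / B₁) := by
        have h2 : (B₁ : ℝ) / D * (1 + Q * D / B₁) = B₁ / D + Q := by field_simp
        rw [h2]
        have h3 : (u : ℝ) + Q * μ ≤ B₁ / D := by rw [le_div_iff₀ hD0]; exact r1
        linarith
      have h2 := Real.log_le_log (by positivity) h1
      rw [Real.log_mul (by positivity) (by positivity)] at h2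
      have h3 := Real.log_le_sub_one_of_pos (show 0 < 1 + Q * (D : ℝ) / B₁ by positivity)
      linarith
    have q4 : Real.log (B₁ / D) - 2 * (Q * D / B₁) ≤ Real.log ((u : ℝ) + Q * μ) := by
      have hx : (Q : ℝ) * D / B₁ ≤ 1 / 4 := by
        rw [div_le_div_iff₀ hB10 (by norm_num)]; linarith
      have hx0 : 0 ≤ (Q : ℝ) * D / B₁ := by positivity
      set x : ℝ := (Q : ℝ) * D / B₁ with hxd
      have h1 : (B₁ : ℝ) / D * (1 - x) ≤ (u : ℝ) + Q * μ := by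
        have h2 : (B₁ : ℝ) / D * (1 - x) = B₁ / D - Q := by rw [hxd]; field_simp
        rw [h2]
        have h3 : (B₁ : ℝ) / D ≤ (u : ℝ) + Q * (μ + 1) := by rw [div_le_iff₀ hD0]; exact r2.le
        linarith
      have h2 := Real.log_le_log (by
        apply mul_pos (by positivity); linarith) h1
      rw [Real.log_mul (by positivity) (by linarith)] at h2
      have h3 : -(2 * x) ≤ Real.log (1 - x) := by
        have h4 := Real.log_le_sub_one_of_pos (show 0 < (1 - x)⁻¹ by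
          apply inv_pos.2; linarith)
        rw [Real.log_inv] at h4
        have h5 : (1 - x)⁻¹ - 1 ≤ 2 * x := by
          rw [inv_eq_one_div, sub_le_iff_le_add, div_le_iff₀ (by linarith)]
          nlinarith
        linarith
      linarith
    have hlogd : Real.log ((B₂ : ℝ) / B₁) = Real.log (B₂ / D) - Real.log (B₁ / D) := by
      rw [Real.log_div hB20.ne' hB10.ne', Real.log_div hB20.ne' hD0.ne',
        Real.log_div hB10.ne' hD0.ne']
      ring
    have w1 : 1 / (Q : ℝ) * Real.log ((B₂ : ℝ) / B₁) - D / B₁ ≤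
        (Real.log ((u : ℝ) + Q * (μ' + 1)) - Real.log ((u : ℝ) + Q * (μ + 1))) / Q := by
      rw [le_div_iff₀ hQ0, hlogd]
      have : (1 / (Q : ℝ) * (Real.log (B₂ / D) - Real.log (B₁ / D)) - D / B₁) * Q =
        (Real.log (B₂ / D) - Real.log (B₁ / D)) - Q * D / B₁ := by field_simp
      rw [this]
      linarith
    have w2 : (Real.log ((u : ℝ) + Q * μ') - Real.log ((u : ℝ) + Q * μ)) / Q ≤
        1 / (Q : ℝ) * Real.log ((B₂ : ℝ) / B₁) + 2 * D / B₁ := by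
      rw [div_le_iff₀ hQ0, hlogd]
      have : (1 / (Q : ℝ) * (Real.log (B₂ / D) - Real.log (B₁ / D)) + 2 * D / B₁) * Q =
        (Real.log (B₂ / D) - Real.log (B₁ / D)) + 2 * (Q * D / B₁) := by field_simp
      rw [this]
      linarith
    have w3 : (D : ℝ) / B₁ ≤ 2 * D / B₁ := by gcongr; linarith
    rw [abs_le]
    constructor <;> linarith
  rw [hsplit]
  have hfin : (k : ℝ) / (a * D) * ∑ m ∈ Ioc μ μ', 1 / ((u : ℝ) + Q * m) -
        ∑ m ∈ Ioc μ μ', (Int.fract ((((n + k : ℕ) : ℝ) / (a * D)) / ((u : ℝ) + Q * m)) - 1 / 2) +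
        ∑ m ∈ Ioc μ μ', (Int.fract (((n : ℝ) / (a * D)) / ((u : ℝ) + Q * m)) - 1 / 2) -
        (k : ℝ) / (a * Q) * Real.log ((B₂ : ℝ) / B₁) * (1 / D) =
      (k : ℝ) / (a * D) * (∑ m ∈ Ioc μ μ', 1 / ((u : ℝ) + Q * m) -
        1 / Q * Real.log ((B₂ : ℝ) / B₁)) -
        ∑ m ∈ Ioc μ μ', (Int.fract ((((n + k : ℕ) : ℝ) / (a * D)) / ((u : ℝ) + Q * m)) - 1 / 2) +
        ∑ m ∈ Ioc μ μ', (Int.fract (((n : ℝ) / (a * D)) / ((u : ℝ) + Q * m)) - 1 / 2) := by
    have : (k : ℝ) / (a * Q) * Real.log ((B₂ : ℝ) / B₁) * (1 / D) =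
      (k : ℝ) / (a * D) * (1 / Q * Real.log ((B₂ : ℝ) / B₁)) := by field_simp
    rw [this]; ring
  rw [hfin]
  refine (abs_add_le _ _).trans ?_
  refine (add_le_add (abs_sub _ _) le_rfl).trans ?_
  rw [abs_mul, abs_of_nonneg (show 0 ≤ (k : ℝ) / (a * D) by positivity)]
  have hm2 : (k : ℝ) / (a * D) * |∑ m ∈ Ioc μ μ', 1 / ((u : ℝ) + Q * m) -
        1 / Q * Real.log ((B₂ : ℝ) / B₁)| ≤ (k : ℝ) / (a * D) * (2 * D / B₁) := by gcongr
  have hm3 : (k : ℝ) / (a * D) * (2 * D / B₁) = 2 * k / (a * B₁) := by field_simp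
  rw [hm3] at hm2
  linarith

/-- parametrisation of the multiples of `D` in the class `1` modulo `Q` -/
lemma reparam (D Q u B₁ B₂ : ℕ) (hD : 1 ≤ D) (hQ : 1 ≤ Q) (hu : u < Q) (hB₁ : 4 * Q * D ≤ B₁)
    (hB : B₁ ≤ B₂) (hDu : D * u ≡ 1 [MOD Q]) (F : ℕ → ℝ) :
    ∑ b ∈ (Ioc B₁ B₂).filter (fun b => b ≡ 1 [MOD Q] ∧ D ∣ b), F b =
      ∑ m ∈ Ioc (mu D Q u B₁) (mu D Q u B₂), F (D * (u + Q * m)) := by
  have hu1 : u ≤ B₁ / D := by
    rw [Nat.le_div_iff_mul_le (by omega)]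
    nlinarith
  have hu2 : u ≤ B₂ / D := hu1.trans (Nat.div_le_div_right hB)
  obtain ⟨s1, s2⟩ := mu_spec D Q u B₁ hD hQ hu1
  obtain ⟨s3, s4⟩ := mu_spec D Q u B₂ hD hQ hu2
  symm
  apply sum_bij (fun m _ => D * (u + Q * m))
  · intro m hm
    rw [mem_Ioc] at hm
    rw [mem_filter, mem_Ioc]
    refine ⟨⟨?_, ?_⟩, ?_, Dvd.intro _ rfl⟩
    · have h1 : mu D Q u B₁ + 1 ≤ m := hm.1
      calc B₁ < (u + Q * (mu D Q u B₁ + 1)) * D := s2
        _ ≤ (u + Q * m) * D := by gcongr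
        _ = D * (u + Q * m) := by ring
    · calc D * (u + Q * m) ≤ D * (u + Q * mu D Q u B₂) := by gcongr; exact hm.2
        _ = (u + Q * mu D Q u B₂) * D := by ring
        _ ≤ B₂ := s3
    · have h1 : D * (u + Q * m) = D * u + Q * (D * m) := by ring
      rw [h1]
      have h2 : D * u + Q * (D * m) ≡ D * u [MOD Q] := by
        simp [Nat.ModEq]
      exact h2.trans hDu
  · intro m _ m' _ h
    have h1 : u + Q * m = u + Q * m' := Nat.eq_of_mul_eq_mul_left (by omega) h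
    have h2 : Q * m = Q * m' := by omega
    exact Nat.eq_of_mul_eq_mul_left (by omega) h2
  · intro b hb
    rw [mem_filter, mem_Ioc] at hb
    obtain ⟨⟨hb1, hb2⟩, hb3, v, rfl⟩ := hb
    have hcop : Nat.Coprime Q D := by
      have h1 : Nat.Coprime (D * u) Q := by
        rw [Nat.Coprime, hDu.gcd_eq, Nat.gcd_one_left]
      exact (Nat.Coprime.coprime_mul_right h1).symm
    have h1 : v ≡ u [MOD Q] := by
      apply Nat.ModEq.cancel_left_of_coprime hcop
      exact hb3.trans hDu.symm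
    have h2 : v % Q = u := by
      rw [h1, Nat.mod_eq_of_lt hu]
    have h3 : u + Q * (v / Q) = v := by
      have := Nat.mod_add_div v Q
      rw [h2] at this; exact this
    refine ⟨v / Q, ?_, by rw [h3]⟩
    rw [mem_Ioc]
    constructor
    · by_contra h4
      push Not at h4
      have h5 : D * v ≤ B₁ := by
        calc D * v = (u + Q * (v / Q)) * D := by rw [h3]; ring
          _ ≤ (u + Q * mu D Q u B₁) * D := by gcongr
          _ ≤ B₁ := s1
      omega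
    · by_contra h4
      push Not at h4
      have h4' : mu D Q u B₂ + 1 ≤ v / Q := h4
      have h5 : B₂ < D * v := by
        calc B₂ < (u + Q * (mu D Q u B₂ + 1)) * D := s4
          _ ≤ (u + Q * (v / Q)) * D := by gcongr
          _ = D * v := by rw [h3]; ring
      omega
  · intro m _
    rfl

end Pool.Agent.Helper46_SP
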