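import Mathlib
import Pool.Agent.Helper46_SP.Core
import Pool.Agent.H20R2.EN.FLem

/-! The fundamental lemma applied to the products `a * b` in a short interval. -/

set_option autoImplicit false

open Finset

namespace Pool.Agent.Helper46_SP

open Pool.Agent.Helper46_SS (cnt cnt_eq)

/-- the primes in `(C, 2^(2^J)]` -/
def PJ (C J : ℕ) : Finset ℕ := (Ioc C (2 ^ 2 ^ J)).filter Nat.Prime

/-- the integers of `(B₁, B₂]` congruent to `1` modulo `Q` -/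
def Om (Q B₁ B₂ : ℕ) : Finset ℕ := (Ioc B₁ B₂).filter (fun b => b ≡ 1 [MOD Q])

/-- the size of the errors -/
noncomputable def err0 (n k A₁ A₂ B₁ B₂ H t : ℕ) : ℝ :=
  A₂ * (2 * k / (A₁ * B₁) + 2 * t * ((B₂ : ℝ) / H + 250 * (Real.sqrt (4 * H * n / (A₁ * B₁)) +
        Real.sqrt ((B₂ : ℝ) ^ 3 * A₂ / n)) * (1 + 2 * Real.log H)))

lemma card_T (P : Finset ℕ) (hP : ∀ p ∈ P, p.Prime) (N : ℕ) :
    (P.powerset.filter (fun T : Finset ℕ => ∏ p ∈ T, p ≤ N)).card ≤ N := by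
  have h1 : (P.powerset.filter (fun T : Finset ℕ => ∏ p ∈ T, p ≤ N)).card ≤ (Icc 1 N).card := by
    apply card_le_card_of_injOn (fun T => ∏ p ∈ T, p)
    · intro T hT
      have hT' : T ∈ P.powerset.filter (fun T : Finset ℕ => ∏ p ∈ T, p ≤ N) := hT
      rw [mem_filter, mem_powerset] at hT'
      have : (∏ p ∈ T, p) ∈ Icc 1 N := by
        rw [mem_Icc]
        exact ⟨Finset.prod_pos (fun p hp => (hP p (hT'.1 hp)).pos), hT'.2⟩
      exact this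
    · intro T hT T' hT' h
      have h1 : T ∈ P.powerset.filter (fun T : Finset ℕ => ∏ p ∈ T, p ≤ N) := hT
      have h2 : T' ∈ P.powerset.filter (fun T : Finset ℕ => ∏ p ∈ T, p ≤ N) := hT'
      rw [mem_filter, mem_powerset] at h1 h2
      have e1 := Nat.primeFactors_prod (s := T) (fun p hp => hP p (h1.1 hp))
      have e2 := Nat.primeFactors_prod (s := T') (fun p hp => hP p (h2.1 hp))
      have h' : ∏ p ∈ T, p = ∏ p ∈ T', p := h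
      rw [← e1, ← e2, h']
  simpa using h1

/-- one modulus `D`: the mass of the multiples of `D` -/
lemma mass_D (n k A₁ A₂ B₁ B₂ H t D Q : ℕ) (𝒜 : Finset ℕ) (hA : ∀ a ∈ 𝒜, A₁ ≤ a ∧ a ≤ A₂)
    (hA1 : 1 ≤ A₁) (hD : 1 ≤ D) (hQ : 1 ≤ Q) (hcop : Nat.Coprime D Q)
    (hB₁ : 4 * Q * D ≤ B₁) (hB : B₁ ≤ B₂) (hk : k ≤ n) (hn : 1 ≤ n) (hH : 1 ≤ H)
    (ht : 2 * B₂ ≤ 2 ^ t * B₁) :
    |∑ b ∈ (Ioc B₁ B₂).filter (fun b => b ≡ 1 [MOD Q] ∧ D ∣ b), ∑ a ∈ 𝒜, (cnt n k (a * b) : ℝ) -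
      ((k : ℝ) / Q * Real.log ((B₂ : ℝ) / B₁) * ∑ a ∈ 𝒜, 1 / (a : ℝ)) * (1 / D)| ≤
      err0 n k A₁ A₂ B₁ B₂ H t := by
  -- the residue class
  obtain ⟨u, hu, hDu⟩ : ∃ u < Q, D * u ≡ 1 [MOD Q] := by
    rcases Nat.lt_or_ge 1 Q with h1 | h1
    · obtain ⟨m, hm⟩ := Nat.exists_mul_mod_eq_one_of_coprime hcop h1
      refine ⟨m % Q, Nat.mod_lt _ (by omega), ?_⟩
      have h2 : D * (m % Q) ≡ D * m [MOD Q] := Nat.ModEq.mul_left _ (Nat.mod_modEq _ _)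
      refine h2.trans ?_
      rw [Nat.ModEq, hm.2, Nat.mod_eq_of_lt h1]
    · have h2 : Q = 1 := by omega
      subst h2
      exact ⟨0, by omega, Nat.modEq_one⟩
  have hQ0 : (0 : ℝ) < Q := by exact_mod_cast hQ
  have hD0 : (0 : ℝ) < D := by exact_mod_cast hD
  have hH1 : (1 : ℝ) ≤ H := by exact_mod_cast hH
  have hlogH : 0 ≤ Real.log H := Real.log_nonneg hH1
  have hA1r : (1 : ℝ) ≤ A₁ := by exact_mod_cast hA1
  have hB1r : (0 : ℝ) < B₁ := by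
    have : 1 ≤ B₁ := le_trans (by
      have : 1 ≤ Q * D := Nat.mul_pos (by omega) (by omega)
      nlinarith) hB₁
    exact_mod_cast this
  have hn0 : (0 : ℝ) < n := by exact_mod_cast hn
  rw [sum_comm, mul_comm ((k : ℝ) / Q * Real.log ((B₂ : ℝ) / B₁)) _, sum_mul, sum_mul,
    ← sum_sub_distrib]
  refine (abs_sum_le_sum_abs _ _).trans ?_
  set E : ℝ := 2 * k / (A₁ * B₁) + 2 * t * ((B₂ : ℝ) / H + 250 *
    (Real.sqrt (4 * H * n / (A₁ * B₁)) +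
        Real.sqrt ((B₂ : ℝ) ^ 3 * A₂ / n)) * (1 + 2 * Real.log H)) with hE
  have hE0 : 0 ≤ E := by rw [hE]; positivity
  have hone : ∀ a ∈ 𝒜, |∑ b ∈ (Ioc B₁ B₂).filter (fun b => b ≡ 1 [MOD Q] ∧ D ∣ b),
      (cnt n k (a * b) : ℝ) - 1 / (a : ℝ) * ((k : ℝ) / Q * Real.log ((B₂ : ℝ) / B₁)) * (1 / D)| ≤
        E := by
    intro a ha
    obtain ⟨ha1, ha2⟩ := hA a ha
    have ha1' : 1 ≤ a := hA1.trans ha1
    have har : (A₁ : ℝ) ≤ a := by exact_mod_cast ha1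
    have har' : (a : ℝ) ≤ A₂ := by exact_mod_cast ha2
    have ha0 : (0 : ℝ) < a := by exact_mod_cast ha1'
    have h1 := core n k a D Q u B₁ B₂ H t ha1' hD hQ hu hB₁ hB hk hn hH ht
    have h2 := reparam D Q u B₁ B₂ hD hQ hu hB₁ hB hDu (fun b => (cnt n k (a * b) : ℝ))
    rw [h2]
    have h3 : ∑ m ∈ Ioc (mu D Q u B₁) (mu D Q u B₂), (cnt n k (a * (D * (u + Q * m))) : ℝ) =
        ∑ m ∈ Ioc (mu D Q u B₁) (mu D Q u B₂), (cnt n k (a * D * (u + Q * m)) : ℝ) := by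
      apply sum_congr rfl
      intro m _
      rw [mul_assoc]
    rw [h3]
    have h4 : 1 / (a : ℝ) * ((k : ℝ) / Q * Real.log ((B₂ : ℝ) / B₁)) * (1 / D) =
        (k : ℝ) / (a * Q) * Real.log ((B₂ : ℝ) / B₁) * (1 / D) := by
      field_simp
    rw [h4]
    refine h1.trans ?_
    rw [hE]
    gcongr
  calc ∑ a ∈ 𝒜, |∑ b ∈ (Ioc B₁ B₂).filter (fun b => b ≡ 1 [MOD Q] ∧ D ∣ b),
      (cnt n k (a * b) : ℝ) - 1 / (a : ℝ) * ((k : ℝ) / Q * Real.log ((B₂ : ℝ) / B₁)) * (1 / D)|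
        ≤ ∑ _a ∈ 𝒜, E := sum_le_sum hone
    _ = 𝒜.card * E := by rw [sum_const, nsmul_eq_mul]
    _ ≤ A₂ * E := by
        have h1 : 𝒜.card ≤ A₂ := by
          have h2 : 𝒜 ⊆ Icc 1 A₂ := by
            intro a ha
            rw [mem_Icc]
            exact ⟨hA1.trans (hA a ha).1, (hA a ha).2⟩
          simpa using card_le_card h2
        have h3 : (𝒜.card : ℝ) ≤ A₂ := by exact_mod_cast h1
        gcongr
    _ = err0 n k A₁ A₂ B₁ B₂ H t := by rw [hE, err0]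

/-- the lower bound from the fundamental lemma -/
theorem rough_lower : ∃ C : ℕ, 1 ≤ C ∧ ∀ (n k A₁ A₂ B₁ B₂ H t J : ℕ) (𝒜 : Finset ℕ),
    (∀ a ∈ 𝒜, A₁ ≤ a ∧ a ≤ A₂) → 1 ≤ A₁ →
    4 * C.factorial * (2 ^ 2 ^ J) ^ (C * C) ≤ B₁ → B₁ ≤ B₂ → k ≤ n → 1 ≤ n → 1 ≤ H →
    2 * B₂ ≤ 2 ^ t * B₁ →
    1 / 2 * (((k : ℝ) / (C.factorial : ℝ) * Real.log ((B₂ : ℝ) / B₁) * ∑ a ∈ 𝒜, 1 / (a : ℝ)) *
        ∏ p ∈ PJ C J, (1 - 1 / (p : ℝ))) -
      ((J : ℝ) + 2) * ((2 ^ 2 ^ J) ^ (C * C) * err0 n k A₁ A₂ B₁ B₂ H t) ≤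
    ∑ b ∈ (Om C.factorial B₁ B₂).filter (fun b => ∀ p ∈ PJ C J, ¬ p ∣ b),
      ∑ a ∈ 𝒜, (cnt n k (a * b) : ℝ) := by
  classical
  obtain ⟨C, hC1, hF⟩ := Pool.Agent.H20R2.fLem 1
  refine ⟨C, hC1, ?_⟩
  intro n k A₁ A₂ B₁ B₂ H t J 𝒜 hA hA1 hB₁ hB hk hn hH ht
  set Q := C.factorial with hQd
  have hQ : 1 ≤ Q := Nat.factorial_pos C
  have hQ0 : (0 : ℝ) < Q := by exact_mod_cast hQ
  have hB1r : (0 : ℝ) < B₁ := by
    have : 1 ≤ B₁ := le_trans (by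
      have h1 : 1 ≤ (2 ^ 2 ^ J) ^ (C * C) := Nat.one_le_pow _ _ (by positivity)
      have : 1 ≤ Q * (2 ^ 2 ^ J) ^ (C * C) := Nat.mul_pos (by omega) (by omega)
      nlinarith) hB₁
    exact_mod_cast this
  have hBr : (B₁ : ℝ) ≤ B₂ := by exact_mod_cast hB
  have hPprime : ∀ p ∈ PJ C J, p.Prime ∧ C < p ∧ p ≤ 2 ^ 2 ^ J := by
    intro p hp
    unfold PJ at hp
    rw [mem_filter, mem_Ioc] at hp
    exact ⟨hp.2, hp.1.1, hp.1.2⟩
  have hX0 : 0 ≤ (k : ℝ) / Q * Real.log ((B₂ : ℝ) / B₁) * ∑ a ∈ 𝒜, 1 / (a : ℝ) := by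
    have h1 : 0 ≤ Real.log ((B₂ : ℝ) / B₁) := by
      apply Real.log_nonneg
      rw [le_div_iff₀ hB1r]; linarith
    have h2 : 0 ≤ ∑ a ∈ 𝒜, 1 / (a : ℝ) := sum_nonneg (fun a _ => by positivity)
    positivity
  set X := (k : ℝ) / Q * Real.log ((B₂ : ℝ) / B₁) * ∑ a ∈ 𝒜, 1 / (a : ℝ) with hX
  have key := hF C J C (PJ C J) (fun p => 1 / (p : ℝ)) le_rfl le_rfl hPprime
    (by
      intro p hp
      obtain ⟨hp1, -, -⟩ := hPprime p hp
      have h2 : (2 : ℝ) ≤ p := by exact_mod_cast hp1.two_le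
      refine ⟨by positivity, ?_⟩
      push_cast
      apply one_div_le_one_div_of_le <;> linarith)
    (Om Q B₁ B₂) (fun b => ∑ a ∈ 𝒜, (cnt n k (a * b) : ℝ)) (fun p b => p ∣ b) X
    (fun _ => err0 n k A₁ A₂ B₁ B₂ H t)
    (fun b _ => sum_nonneg (fun a _ => Nat.cast_nonneg _)) hX0
    (by
      intro T hT hTN
      have hTp : ∀ p ∈ T, p.Prime := fun p hp => (hPprime p (hT hp)).1
      set D := ∏ p ∈ T, p with hDd
      have hD1 : 1 ≤ D := Finset.prod_pos (fun p hp => (hTp p hp).pos)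
      have hcop : Nat.Coprime D Q := by
        rw [hDd, Nat.coprime_prod_left_iff]
        intro p hp
        obtain ⟨hp1, hp2, -⟩ := hPprime p (hT hp)
        rw [hp1.coprime_iff_not_dvd, hQd, hp1.dvd_factorial]
        omega
      have hfil : (Om Q B₁ B₂).filter (fun b => ∀ p ∈ T, p ∣ b) =
          (Ioc B₁ B₂).filter (fun b => b ≡ 1 [MOD Q] ∧ D ∣ b) := by
        unfold Om
        rw [filter_filter]
        apply filter_congr
        intro b _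
        have h1 : (∀ p ∈ T, p ∣ b) ↔ D ∣ b := by
          constructor
          · intro h
            exact Finset.prod_primes_dvd b (fun p hp => (hTp p hp).prime) h
          · intro h p hp
            exact (Finset.dvd_prod_of_mem (fun p => p) hp).trans h
        rw [h1]
      have hprod : ∏ p ∈ T, (1 / (p : ℝ)) = 1 / D := by
        rw [hDd]; push_cast
        rw [Finset.prod_div_distrib, Finset.prod_const_one]
      have h4 : 4 * Q * D ≤ B₁ := by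
        refine le_trans ?_ hB₁
        gcongr
      have h5 := mass_D n k A₁ A₂ B₁ B₂ H t D Q 𝒜 hA hA1 hD1 hQ hcop h4 hB hk hn hH ht
      rw [← hfil, ← hprod] at h5
      convert h5)
  have key' : |∑ b ∈ (Om Q B₁ B₂).filter (fun b => ∀ p ∈ PJ C J, ¬ p ∣ b),
      ∑ a ∈ 𝒜, (cnt n k (a * b) : ℝ) - X * ∏ p ∈ PJ C J, (1 - 1 / (p : ℝ))| ≤
      (1 / 2 : ℝ) ^ C * (X * ∏ p ∈ PJ C J, (1 - 1 / (p : ℝ))) +
        ((J : ℝ) + 2) * ∑ T ∈ (PJ C J).powerset.filter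
          (fun T : Finset ℕ => ∏ p ∈ T, p ≤ (2 ^ 2 ^ J) ^ (C * C)),
            err0 n k A₁ A₂ B₁ B₂ H t := by
    convert key
  have hV0 : 0 ≤ ∏ p ∈ PJ C J, (1 - 1 / (p : ℝ)) := by
    apply prod_nonneg
    intro p hp
    have h2 : (2 : ℝ) ≤ p := by exact_mod_cast (hPprime p hp).1.two_le
    have : 1 / (p : ℝ) ≤ 1 := by rw [div_le_one (by linarith)]; linarith
    linarith
  have hcardT := card_T (PJ C J) (fun p hp => (hPprime p hp).1) ((2 ^ 2 ^ J) ^ (C * C))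
  have herr0 : 0 ≤ err0 n k A₁ A₂ B₁ B₂ H t := by
    have hH1 : (1 : ℝ) ≤ H := by exact_mod_cast hH
    have hlogH : 0 ≤ Real.log H := Real.log_nonneg hH1
    unfold err0; positivity
  rw [sum_const, nsmul_eq_mul] at key'
  have h5 : (((PJ C J).powerset.filter
      (fun T : Finset ℕ => ∏ p ∈ T, p ≤ (2 ^ 2 ^ J) ^ (C * C))).card : ℝ) ≤
        (2 ^ 2 ^ J) ^ (C * C) := by exact_mod_cast hcardT
  have h6 : ((J : ℝ) + 2) * ((((PJ C J).powerset.filter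
      (fun T : Finset ℕ => ∏ p ∈ T, p ≤ (2 ^ 2 ^ J) ^ (C * C))).card : ℝ) *
        err0 n k A₁ A₂ B₁ B₂ H t) ≤
      ((J : ℝ) + 2) * ((2 ^ 2 ^ J) ^ (C * C) * err0 n k A₁ A₂ B₁ B₂ H t) := by
    gcongr
  have h7 : (1 / 2 : ℝ) ^ C * (X * ∏ p ∈ PJ C J, (1 - 1 / (p : ℝ))) ≤
      1 / 2 * (X * ∏ p ∈ PJ C J, (1 - 1 / (p : ℝ))) := by
    have : (1 / 2 : ℝ) ^ C ≤ (1 / 2) ^ 1 := pow_le_pow_of_le_one (by norm_num) (by norm_num) hC1
    rw [pow_one] at this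
    gcongr
  have h8 := (abs_le.1 key').1
  linarith

end Pool.Agent.Helper46_SP
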