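import Mathlib
import Pool.Agent.Helper46_SP.Sieve

/-! Multiplicities: an integer has few divisors without small prime factors. -/

set_option autoImplicit false

open Finset

namespace Pool.Agent.Helper46_SP

open Pool.Agent.Helper46_SS (cnt cnt_eq)

open Classical in
/-- divisors of `m` all of whose prime factors exceed `y` -/
noncomputable def rr (y m : ℕ) : Finset ℕ :=
  m.divisors.filter (fun d => ∀ p : ℕ, p.Prime → p ∣ d → y < p)

lemma mem_rr {y m d : ℕ} :
    d ∈ rr y m ↔ (d ∣ m ∧ m ≠ 0) ∧ ∀ p : ℕ, p.Prime → p ∣ d → y < p := by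
  classical
  unfold rr
  simp only [mem_filter, Nat.mem_divisors]

theorem rr_card (y : ℕ) (hy : 1 ≤ y) : ∀ m : ℕ, 0 < m →
    ∃ k : ℕ, y ^ k ≤ m ∧ (rr y m).card ≤ 2 ^ k := by
  intro m
  induction m using Nat.strong_induction_on with
  | _ m ih =>
    intro hm
    by_cases h : ∃ p : ℕ, p.Prime ∧ p ∣ m ∧ y < p
    · obtain ⟨p, hp, ⟨m1, rfl⟩, hyp⟩ := h
      have hm1 : 0 < m1 := Nat.pos_of_mul_pos_left hm
      have hlt : m1 < p * m1 := by
        have := hp.two_le
        nlinarith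
      obtain ⟨k, hk1, hk2⟩ := ih m1 hlt hm1
      refine ⟨k + 1, ?_, ?_⟩
      · rw [pow_succ, mul_comm p]
        exact Nat.mul_le_mul hk1 hyp.le
      · have hsub : rr y (p * m1) ⊆ rr y m1 ∪ (rr y m1).image (fun d => p * d) := by
          intro d hd
          obtain ⟨⟨hd1, -⟩, hd2⟩ := mem_rr.mp hd
          by_cases hpd : p ∣ d
          · obtain ⟨d1, rfl⟩ := hpd
            refine mem_union_right _ (mem_image.mpr ⟨d1, mem_rr.mpr ⟨⟨?_, hm1.ne'⟩, ?_⟩, rfl⟩)
            · exact Nat.dvd_of_mul_dvd_mul_left hp.pos hd1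
            · intro q hq hqd
              exact hd2 q hq (Dvd.dvd.mul_left hqd p)
          · refine mem_union_left _ (mem_rr.mpr ⟨⟨?_, hm1.ne'⟩, hd2⟩)
            have hc : Nat.Coprime d p := ((hp.coprime_iff_not_dvd).mpr hpd).symm
            exact hc.dvd_of_dvd_mul_left hd1
        have h1 := (card_le_card hsub).trans (card_union_le _ _)
        have h2 : ((rr y m1).image (fun d => p * d)).card ≤ (rr y m1).card := card_image_le
        rw [pow_succ]
        omega
    · push Not at h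
      refine ⟨0, ?_, ?_⟩
      · rw [pow_zero]; exact hm
      · rw [pow_zero]
        have hsub : rr y m ⊆ {1} := by
          intro d hd
          obtain ⟨⟨hd1, -⟩, hd2⟩ := mem_rr.mp hd
          rw [mem_singleton]
          by_contra hne
          obtain ⟨q, hq, hqd⟩ := Nat.exists_prime_and_dvd hne
          have h1 := h q hq (hqd.trans hd1)
          have h2 := hd2 q hq hqd
          omega
        have := card_le_card hsub
        rwa [card_singleton] at this

lemma rr_card' (y m κ : ℕ) (hy : 1 ≤ y) (hm : 0 < m) (hκ : m < y ^ (κ + 1)) :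
    (rr y m).card ≤ 2 ^ κ := by
  obtain ⟨k, hk1, hk2⟩ := rr_card y hy m hm
  have h1 : k < κ + 1 := by
    by_contra h
    push Not at h
    have h2 : y ^ (κ + 1) ≤ y ^ k := Nat.pow_le_pow_right hy h
    omega
  exact hk2.trans (Nat.pow_le_pow_right (by norm_num) (by omega))

/-- the number of `i ≤ k` for which `n + i` has a prime factor above `k` -/
def ff (n k : ℕ) : ℕ :=
  ((Icc 1 k).filter (fun i => ∃ p ∈ (n + i).primeFactors, k < p)).card

lemma ff_compl (n k : ℕ) :
    ((Icc 1 k).filter (fun i => ¬ ∃ p ∈ (n + i).primeFactors, k < p)).card + ff n k = k := by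
  have h := card_filter_add_card_filter_not (s := Icc 1 k)
    (fun i => ∃ p ∈ (n + i).primeFactors, k < p)
  rw [Nat.card_Icc] at h
  unfold ff
  omega

/-- every prime factor of the sifted `b` is large -/
lemma rough_b (C J B₁ B₂ b : ℕ)
    (hb : b ∈ (Om C.factorial B₁ B₂).filter (fun b => ∀ p ∈ PJ C J, ¬ p ∣ b)) :
    ∀ p : ℕ, p.Prime → p ∣ b → 2 ^ 2 ^ J < p := by
  intro p hp hpb
  unfold Om at hb
  rw [mem_filter, mem_filter, mem_Ioc] at hb
  obtain ⟨⟨_, hmod⟩, hP⟩ := hb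
  by_contra hle
  push Not at hle
  by_cases hpC : p ≤ C
  · have h1 : p ∣ C.factorial := (hp.dvd_factorial).2 hpC
    have h2 : b ≡ 1 [MOD p] := hmod.of_dvd h1
    have h3 : b ≡ 0 [MOD p] := (Nat.modEq_zero_iff_dvd).2 hpb
    have h4 : 1 ≡ 0 [MOD p] := h2.symm.trans h3
    have h5 := (Nat.modEq_zero_iff_dvd).1 h4
    exact hp.one_lt.ne' (Nat.dvd_one.1 h5)
  · refine hP p ?_ hpb
    unfold PJ
    rw [mem_filter, mem_Ioc]
    exact ⟨⟨by omega, hle⟩, hp⟩

/-- counting with multiplicity against smooth values -/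
theorem mult_bound (n k A₁ B₁ B₂ J C κ : ℕ) (𝒜 : Finset ℕ)
    (hA : ∀ a ∈ 𝒜, a.Prime ∧ 2 ^ 2 ^ J < a ∧ A₁ ≤ a ∧ a ≤ k) (hB : B₂ ≤ k)
    (hc : n + k ≤ k * (A₁ * B₁)) (hκ : n + k < (2 ^ 2 ^ J) ^ (κ + 1)) (hA1 : 1 ≤ A₁)
    (hB1 : 1 ≤ B₁) :
    ∑ b ∈ (Om C.factorial B₁ B₂).filter (fun b => ∀ p ∈ PJ C J, ¬ p ∣ b),
      ∑ a ∈ 𝒜, (cnt n k (a * b) : ℝ) ≤ 4 ^ κ * ((k : ℝ) - ff n k) := by
  classical
  set Ωr := (Om C.factorial B₁ B₂).filter (fun b => ∀ p ∈ PJ C J, ¬ p ∣ b) with hΩ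
  have h1 : ∑ b ∈ Ωr, ∑ a ∈ 𝒜, (cnt n k (a * b)) =
      ∑ i ∈ Icc 1 k, ((Ωr ×ˢ 𝒜).filter (fun x => x.2 * x.1 ∣ n + i)).card := by
    rw [← sum_product']
    unfold cnt
    simp only [card_filter]
    rw [sum_comm]
  have h2 : ∀ i ∈ Icc 1 k, ((Ωr ×ˢ 𝒜).filter (fun x => x.2 * x.1 ∣ n + i)).card ≤
      if (∃ p ∈ (n + i).primeFactors, k < p) then 0 else 4 ^ κ := by
    intro i hi
    rw [mem_Icc] at hi
    split_ifs with hs
    · rw [Nat.le_zero, card_eq_zero, filter_eq_empty_iff]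
      rintro ⟨b, a⟩ hx hdvd
      rw [mem_product] at hx
      obtain ⟨hb, ha⟩ := hx
      simp only at hb ha hdvd
      obtain ⟨ha1, ha2, ha3, ha4⟩ := hA a ha
      obtain ⟨p, hp, hkp⟩ := hs
      obtain ⟨c, hcc⟩ := hdvd
      have hpp := Nat.prime_of_mem_primeFactors hp
      have hpd := Nat.dvd_of_mem_primeFactors hp
      have hb' : B₁ < b ∧ b ≤ B₂ := by
        rw [hΩ] at hb
        unfold Om at hb
        rw [mem_filter, mem_filter, mem_Ioc] at hb
        exact hb.1.1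
      have hc0 : 0 < c := by
        rcases Nat.eq_zero_or_pos c with h0 | h0
        · subst h0; omega
        · exact h0
      have hck : c ≤ k := by
        by_contra h3
        push Not at h3
        have h4 : A₁ * B₁ ≤ a * b := Nat.mul_le_mul ha3 hb'.1.le
        have h5 : a * b * c ≤ k * (A₁ * B₁) := by omega
        have h6 : k * (A₁ * B₁) ≤ k * (a * b) := Nat.mul_le_mul le_rfl h4
        have h7 : 0 < a * b := Nat.mul_pos (by omega) (by omega)
        have h8 : k * (a * b) < a * b * c := by nlinarith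
        omega
      rw [hcc] at hpd
      rcases (hpp.dvd_mul).1 hpd with h3 | h3
      · rcases (hpp.dvd_mul).1 h3 with h4 | h4
        · have := Nat.le_of_dvd (by omega) h4; omega
        · have := Nat.le_of_dvd (by omega) h4; omega
      · have := Nat.le_of_dvd hc0 h3; omega
    · have h3 : (Ωr ×ˢ 𝒜).filter (fun x => x.2 * x.1 ∣ n + i) ⊆
          (rr (2 ^ 2 ^ J) (n + i)) ×ˢ (rr (2 ^ 2 ^ J) (n + i)) := by
        rintro ⟨b, a⟩ hx
        rw [mem_filter, mem_product] at hx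
        obtain ⟨⟨hb, ha⟩, hdvd⟩ := hx
        simp only at hb ha hdvd
        obtain ⟨ha1, ha2, ha3, ha4⟩ := hA a ha
        rw [mem_product]
        constructor
        · simp only
          rw [mem_rr]
          exact ⟨⟨(Dvd.intro_left a rfl).trans hdvd, by omega⟩, rough_b C J B₁ B₂ b hb⟩
        · simp only
          rw [mem_rr]
          refine ⟨⟨(Dvd.intro b rfl).trans hdvd, by omega⟩, ?_⟩
          intro p hp hpa
          rw [(Nat.prime_dvd_prime_iff_eq hp ha1).1 hpa]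
          exact ha2
      have h4 := card_le_card h3
      rw [card_product] at h4
      have h5 : (rr (2 ^ 2 ^ J) (n + i)).card ≤ 2 ^ κ :=
        rr_card' _ _ _ (Nat.one_le_pow _ _ (by norm_num)) (by omega) (by omega)
      calc _ ≤ _ := h4
        _ ≤ 2 ^ κ * 2 ^ κ := Nat.mul_le_mul h5 h5
        _ = 4 ^ κ := by rw [← mul_pow]; norm_num
  have h3 : ∑ b ∈ Ωr, ∑ a ∈ 𝒜, (cnt n k (a * b)) ≤ 4 ^ κ * (k - ff n k) := by
    rw [h1]
    refine (sum_le_sum h2).trans ?_
    rw [← sum_filter_add_sum_filter_not (Icc 1 k) (fun i => ∃ p ∈ (n + i).primeFactors, k < p)]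
    have e1 : ∑ i ∈ (Icc 1 k).filter (fun i => ∃ p ∈ (n + i).primeFactors, k < p),
        (if (∃ p ∈ (n + i).primeFactors, k < p) then 0 else 4 ^ κ) = 0 := by
      apply sum_eq_zero
      intro i hi
      rw [mem_filter] at hi
      rw [if_pos hi.2]
    have e2 : ∑ i ∈ (Icc 1 k).filter (fun i => ¬ ∃ p ∈ (n + i).primeFactors, k < p),
        (if (∃ p ∈ (n + i).primeFactors, k < p) then 0 else 4 ^ κ) = 4 ^ κ * (k - ff n k) := by
      rw [sum_congr rfl (fun i hi => if_neg (mem_filter.1 hi).2)]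
      rw [sum_const, smul_eq_mul, mul_comm]
      congr 1
      have := ff_compl n k
      omega
    rw [e1, e2, zero_add]
  have h4 : ff n k ≤ k := by have := ff_compl n k; omega
  have h5 : ((∑ b ∈ Ωr, ∑ a ∈ 𝒜, (cnt n k (a * b)) : ℕ) : ℝ) ≤
      ((4 ^ κ * (k - ff n k) : ℕ) : ℝ) := by exact_mod_cast h3
  rw [Nat.cast_mul, Nat.cast_sub h4] at h5
  push_cast at h5
  exact h5

end Pool.Agent.Helper46_SP
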