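import Mathlib
import Pool.Agent.Helper46_SP.Mult
import Pool.Agent.H318R2.Cr.Prod

/-! The size of the error terms, sums of reciprocals of primes, and the sieve product. -/

set_option autoImplicit false

open Finset Filter

namespace Pool.Agent.Helper46_SP

lemma sqrt_rp (x e : ℝ) (hx : 0 < x) : Real.sqrt (x ^ e) = x ^ (e / 2) := by
  rw [Real.sqrt_eq_rpow, ← Real.rpow_mul hx.le]
  congr 1
  ring

theorem err_bound (n k A₁ A₂ B₁ B₂ H t : ℕ) (α δ a₁ a₂ b₁ b₂ h η : ℝ) (hk : 3 ≤ k)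
    (hA₂ : (A₂ : ℝ) ≤ (k : ℝ) ^ a₂) (hA₁ : (k : ℝ) ^ a₁ / 2 ≤ A₁) (hB₁ : (k : ℝ) ^ b₁ / 2 ≤ B₁)
    (hB₂ : (B₂ : ℝ) ≤ (k : ℝ) ^ b₂) (hH₁ : (k : ℝ) ^ h ≤ H) (hH₂ : (H : ℝ) ≤ 2 * (k : ℝ) ^ h)
    (hn₁ : (k : ℝ) ^ (α - δ) ≤ n) (hn₂ : (n : ℝ) ≤ (k : ℝ) ^ (α + δ))
    (ht : (t : ℝ) ≤ 3 * Real.log k) (hh0 : 0 ≤ h) (hh1 : h ≤ 1)
    (c1 : a₂ - a₁ - b₁ ≤ - η) (c2 : a₂ + b₂ - h ≤ 1 - η)
    (c3 : (h + α + δ - a₁ - b₁) / 2 + a₂ ≤ 1 - η) (c4 : (3 * b₂ + 3 * a₂ - α + δ) / 2 ≤ 1 - η) :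
    err0 n k A₁ A₂ B₁ B₂ H t ≤ 60000 * Real.log k ^ 2 * (k : ℝ) ^ (1 - η) := by
  have hkr : (3 : ℝ) ≤ k := by exact_mod_cast hk
  set x : ℝ := (k : ℝ) with hx
  have hx0 : 0 < x := by linarith
  have hx1 : 1 ≤ x := by linarith
  have hL1 : 1 ≤ Real.log x := by
    rw [Real.le_log_iff_exp_le hx0]
    have := Real.exp_one_lt_d9
    linarith
  set L := Real.log x with hL
  set E := x ^ (1 - η) with hE
  have hE0 : 0 < E := by positivity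
  have hAB : x ^ (a₁ + b₁) / 4 ≤ (A₁ : ℝ) * B₁ := by
    have h1 : x ^ (a₁ + b₁) / 4 = (x ^ a₁ / 2) * (x ^ b₁ / 2) := by
      rw [Real.rpow_add hx0]; ring
    rw [h1]
    gcongr
  have hpow : ∀ e : ℝ, 0 < x ^ e := fun e => Real.rpow_pos_of_pos hx0 e
  have hAB0 : 0 < (A₁ : ℝ) * B₁ := lt_of_lt_of_le (by have := hpow (a₁ + b₁); linarith) hAB
  have hn0 : (0 : ℝ) < n := lt_of_lt_of_le (hpow _) hn₁
  have hH0 : (0 : ℝ) < H := lt_of_lt_of_le (hpow _) hH₁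
  have hmono : ∀ e e' : ℝ, e ≤ e' → x ^ e ≤ x ^ e' := fun e e' hee =>
    Real.rpow_le_rpow_of_exponent_le hx1 hee
  have hA₂0 : (0 : ℝ) ≤ A₂ := Nat.cast_nonneg _
  have hB₂0 : (0 : ℝ) ≤ B₂ := Nat.cast_nonneg _
  have T1 : (A₂ : ℝ) * (2 * x / (A₁ * B₁)) ≤ 8 * E := by
    calc (A₂ : ℝ) * (2 * x / (A₁ * B₁)) ≤ x ^ a₂ * (2 * x / (x ^ (a₁ + b₁) / 4)) := by
          have := hpow (a₁ + b₁)
          gcongr
      _ = 8 * (x ^ a₂ * (x ^ (1 : ℝ) / x ^ (a₁ + b₁))) := by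
          rw [Real.rpow_one]; field_simp; ring
      _ = 8 * x ^ (a₂ + (1 - (a₁ + b₁))) := by
          rw [← Real.rpow_sub hx0, ← Real.rpow_add hx0]
      _ ≤ 8 * E := by
          have := hmono (a₂ + (1 - (a₁ + b₁))) (1 - η) (by linarith)
          linarith
  have T2 : (A₂ : ℝ) * ((B₂ : ℝ) / H) ≤ E := by
    calc (A₂ : ℝ) * ((B₂ : ℝ) / H) ≤ x ^ a₂ * (x ^ b₂ / x ^ h) := by
          have := hpow h
          have := hpow a₂
          gcongr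
      _ = x ^ (a₂ + (b₂ - h)) := by rw [← Real.rpow_sub hx0, ← Real.rpow_add hx0]
      _ ≤ E := hmono _ _ (by linarith)
  have T3 : (A₂ : ℝ) * Real.sqrt (4 * H * n / (A₁ * B₁)) ≤ 6 * E := by
    calc (A₂ : ℝ) * Real.sqrt (4 * H * n / (A₁ * B₁)) ≤
          x ^ a₂ * Real.sqrt (4 * (2 * x ^ h) * x ^ (α + δ) / (x ^ (a₁ + b₁) / 4)) := by
          have := hpow (a₁ + b₁)
          have := hpow a₂
          gcongr
      _ = x ^ a₂ * Real.sqrt (32 * x ^ (h + (α + δ) - (a₁ + b₁))) := by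
          congr 2
          rw [Real.rpow_sub hx0 (h + (α + δ)) (a₁ + b₁), Real.rpow_add hx0 h (α + δ)]
          have := hpow (a₁ + b₁)
          field_simp
          norm_num
      _ = Real.sqrt 32 * x ^ (a₂ + (h + (α + δ) - (a₁ + b₁)) / 2) := by
          rw [Real.sqrt_mul (by norm_num), sqrt_rp _ _ hx0, Real.rpow_add hx0]; ring
      _ ≤ 6 * E := by
          have h1 : Real.sqrt 32 ≤ 6 := by
            rw [show (6 : ℝ) = Real.sqrt (6 ^ 2) by rw [Real.sqrt_sq (by norm_num)]]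
            apply Real.sqrt_le_sqrt; norm_num
          have h2 := hmono (a₂ + (h + (α + δ) - (a₁ + b₁)) / 2) (1 - η) (by linarith)
          have h3 := hpow (a₂ + (h + (α + δ) - (a₁ + b₁)) / 2)
          gcongr
  have T4 : (A₂ : ℝ) * Real.sqrt ((B₂ : ℝ) ^ 3 * A₂ / n) ≤ E := by
    calc (A₂ : ℝ) * Real.sqrt ((B₂ : ℝ) ^ 3 * A₂ / n) ≤
          x ^ a₂ * Real.sqrt ((x ^ b₂) ^ 3 * x ^ a₂ / x ^ (α - δ)) := by
          have := hpow (α - δ)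
          have := hpow a₂
          gcongr
      _ = x ^ a₂ * Real.sqrt (x ^ (b₂ * 3 + a₂ - (α - δ))) := by
          congr 2
          rw [Real.rpow_sub hx0 (b₂ * 3 + a₂) (α - δ), Real.rpow_add hx0 (b₂ * 3) a₂,
            Real.rpow_mul hx0.le b₂ 3]
          congr 2
          norm_cast
      _ = x ^ (a₂ + (b₂ * 3 + a₂ - (α - δ)) / 2) := by
          rw [sqrt_rp _ _ hx0, Real.rpow_add hx0]
      _ ≤ E := hmono _ _ (by linarith)
  have hlogH : 1 + 2 * Real.log H ≤ 5 * L := by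
    have h1 : Real.log H ≤ Real.log (2 * x ^ h) := Real.log_le_log hH0 hH₂
    rw [Real.log_mul (by norm_num) (hpow h).ne', Real.log_rpow hx0] at h1
    have h2 : Real.log 2 ≤ 1 := by have := Real.log_two_lt_d9; linarith
    have h3 : h * L ≤ 1 * L := by gcongr
    linarith
  have hlogH0 : 0 ≤ 1 + 2 * Real.log H := by
    have h1 : (1 : ℝ) ≤ H := le_trans (Real.one_le_rpow hx1 hh0) hH₁
    have := Real.log_nonneg h1
    linarith
  have ht0 : (0 : ℝ) ≤ t := Nat.cast_nonneg t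
  have hsplit : err0 n k A₁ A₂ B₁ B₂ H t = (A₂ : ℝ) * (2 * x / (A₁ * B₁)) +
      2 * t * ((A₂ : ℝ) * ((B₂ : ℝ) / H) + 250 * ((A₂ : ℝ) * Real.sqrt (4 * H * n / (A₁ * B₁)) +
        (A₂ : ℝ) * Real.sqrt ((B₂ : ℝ) ^ 3 * A₂ / n)) * (1 + 2 * Real.log H)) := by
    unfold err0; ring
  rw [hsplit]
  calc (A₂ : ℝ) * (2 * x / (A₁ * B₁)) +
      2 * t * ((A₂ : ℝ) * ((B₂ : ℝ) / H) + 250 * ((A₂ : ℝ) * Real.sqrt (4 * H * n / (A₁ * B₁)) +
        (A₂ : ℝ) * Real.sqrt ((B₂ : ℝ) ^ 3 * A₂ / n)) * (1 + 2 * Real.log H)) ≤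
      8 * E + 2 * (3 * L) * (E + 250 * (6 * E + E) * (5 * L)) := by
        have h1 : 0 ≤ (A₂ : ℝ) * Real.sqrt (4 * H * n / (A₁ * B₁)) +
          (A₂ : ℝ) * Real.sqrt ((B₂ : ℝ) ^ 3 * A₂ / n) := by positivity
        have h2 : 0 ≤ (A₂ : ℝ) * ((B₂ : ℝ) / H) := by positivity
        gcongr
    _ = E * (8 + 6 * L + 52500 * L ^ 2) := by ring
    _ ≤ E * (60000 * L ^ 2) := by
        have : 8 + 6 * L + 52500 * L ^ 2 ≤ 60000 * L ^ 2 := by nlinarith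
        gcongr
    _ = 60000 * L ^ 2 * E := by ring

/-- the sieve product from below -/
theorem prod_PJ : ∃ c : ℝ, 0 < c ∧ ∀ C J : ℕ,
    c / Real.log ((2 ^ 2 ^ J : ℕ) : ℝ) ≤ ∏ p ∈ PJ C J, (1 - 1 / (p : ℝ)) := by
  obtain ⟨c₁, c₂, h1, -, h2⟩ := Pool.Agent.H318R2.Cr.cz_bounds
  refine ⟨c₁, h1, ?_⟩
  intro C J
  have hz : 2 ≤ 2 ^ 2 ^ J := by
    calc 2 = 2 ^ 1 := by norm_num
      _ ≤ 2 ^ 2 ^ J := Nat.pow_le_pow_right (by norm_num) Nat.one_le_two_pow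
  have h3 := (h2 (2 ^ 2 ^ J) hz).1
  have hlog : 0 < Real.log ((2 ^ 2 ^ J : ℕ) : ℝ) := by
    apply Real.log_pos
    have : (2 : ℝ) ≤ ((2 ^ 2 ^ J : ℕ) : ℝ) := by exact_mod_cast hz
    linarith
  rw [div_le_iff₀ hlog]
  refine h3.trans ?_
  gcongr
  unfold Pool.Agent.H318R2.Cr.V
  have hsub : PJ C J ⊆ Pool.Agent.H318R2.Cr.Pz (2 ^ 2 ^ J) := by
    intro p hp
    unfold PJ at hp
    rw [mem_filter, mem_Ioc] at hp
    unfold Pool.Agent.H318R2.Cr.Pz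
    rw [mem_filter, mem_Ioc]
    exact ⟨⟨hp.2.pos, hp.1.2⟩, hp.2⟩
  have hfac : ∀ p ∈ Pool.Agent.H318R2.Cr.Pz (2 ^ 2 ^ J), 0 ≤ 1 - 1 / (p : ℝ) ∧
      1 - 1 / (p : ℝ) ≤ 1 := by
    intro p hp
    unfold Pool.Agent.H318R2.Cr.Pz at hp
    rw [mem_filter, mem_Ioc] at hp
    have h4 : (1 : ℝ) ≤ p := by exact_mod_cast hp.2.one_lt.le
    have h5 : 1 / (p : ℝ) ≤ 1 := by rw [div_le_one (by linarith)]; exact h4
    have h6 : 0 ≤ 1 / (p : ℝ) := by positivity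
    constructor <;> linarith
  rw [← prod_sdiff hsub]
  have h4 : ∏ p ∈ Pool.Agent.H318R2.Cr.Pz (2 ^ 2 ^ J) \ PJ C J, (1 - 1 / (p : ℝ)) ≤ 1 := by
    apply prod_le_one
    · intro p hp; exact (hfac p (mem_sdiff.1 hp).1).1
    · intro p hp; exact (hfac p (mem_sdiff.1 hp).1).2
  have h5 : 0 ≤ ∏ p ∈ PJ C J, (1 - 1 / (p : ℝ)) :=
    prod_nonneg (fun p hp => (hfac p (hsub hp)).1)
  nlinarith

lemma floor_half (y : ℝ) (hy : 1 ≤ y) : y / 2 ≤ (⌊y⌋₊ : ℝ) := by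
  have h1 := Nat.lt_floor_add_one y
  have h2 : 1 ≤ ⌊y⌋₊ := (Nat.one_le_floor_iff y).2 hy
  have h3 : (1 : ℝ) ≤ ⌊y⌋₊ := by exact_mod_cast h2
  linarith

/-- reciprocals of the primes between two powers -/
theorem mass_A (a₁ a₂ : ℝ) (h0 : 0 < a₁) (h12 : a₁ < a₂) : ∃ s : ℝ, 0 < s ∧
    ∀ᶠ x : ℝ in atTop, s ≤ ∑ p ∈ (Ioc ⌊x ^ a₁⌋₊ ⌊x ^ a₂⌋₊).filter Nat.Prime, (1 : ℝ) / p := by
  obtain ⟨C, hC0, hC⟩ := Pool.Agent.Helper923.HMertens.mertens_ratio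
  set r := (a₁ + a₂) / (2 * a₁) with hr
  have hr1 : 1 < r := by rw [hr, lt_div_iff₀ (by positivity)]; linarith
  set s := Real.log r / 2 with hs
  have hlr : 0 < Real.log r := Real.log_pos hr1
  have hs0 : 0 < s := by rw [hs]; positivity
  refine ⟨s, hs0, ?_⟩
  have e1 : ∀ᶠ x : ℝ in atTop, 4 ≤ x ^ a₁ := (tendsto_rpow_atTop h0).eventually_ge_atTop 4
  have e2 : ∀ᶠ x : ℝ in atTop, Real.log 2 / ((a₂ - a₁) / 2) ≤ Real.log x :=
    Real.tendsto_log_atTop.eventually_ge_atTop _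
  have e3 : ∀ᶠ x : ℝ in atTop, (C / s + Real.log 2) / a₁ ≤ Real.log x :=
    Real.tendsto_log_atTop.eventually_ge_atTop _
  filter_upwards [e1, e2, e3, eventually_ge_atTop 1] with x h1 h2 h3 hx1
  have hx0 : 0 < x := by linarith
  have hle : x ^ a₁ ≤ x ^ a₂ := Real.rpow_le_rpow_of_exponent_le hx1 h12.le
  set A := ⌊x ^ a₁⌋₊ with hA
  set B := ⌊x ^ a₂⌋₊ with hB
  have hA2 : 2 ≤ A := by
    rw [hA]; apply Nat.le_floor; push_cast; linarith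
  have hAB : A ≤ B := Nat.floor_le_floor hle
  have hm := hC A B hA2 hAB
  have hAr : (2 : ℝ) ≤ A := by exact_mod_cast hA2
  have hBr : (2 : ℝ) ≤ B := by exact_mod_cast hA2.trans hAB
  have hlA : 0 < Real.log A := Real.log_pos (by linarith)
  have hlB : 0 < Real.log B := Real.log_pos (by linarith)
  rw [div_le_iff₀ (by linarith)] at h2
  rw [div_le_iff₀ h0] at h3
  have g1 : Real.log A ≤ a₁ * Real.log x := by
    have := Real.log_le_log (by linarith) (Nat.floor_le (show 0 ≤ x ^ a₁ by positivity))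
    rwa [Real.log_rpow hx0] at this
  have g2 : a₁ * Real.log x - Real.log 2 ≤ Real.log A := by
    have h5 := floor_half (x ^ a₁) (by linarith)
    have := Real.log_le_log (by positivity) h5
    rwa [Real.log_div (by positivity) (by norm_num), Real.log_rpow hx0] at this
  have g3 : a₂ * Real.log x - Real.log 2 ≤ Real.log B := by
    have h5 := floor_half (x ^ a₂) (by linarith)
    have := Real.log_le_log (by positivity) h5
    rwa [Real.log_div (by positivity) (by norm_num), Real.log_rpow hx0] at this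
  have g4 : C / s ≤ Real.log A := by linarith
  have g5 : C / Real.log A ≤ s := by
    rw [div_le_iff₀ hlA]
    rw [div_le_iff₀ hs0] at g4
    linarith
  have g6 : r ≤ Real.log B / Real.log A := by
    rw [le_div_iff₀ hlA, hr, div_mul_eq_mul_div, div_le_iff₀ (by positivity)]
    have g7 : (a₁ + a₂) / 2 * Real.log x ≤ Real.log B := by linarith
    have g0 : 0 ≤ a₁ + a₂ := by linarith
    have g8 : (a₁ + a₂) * Real.log A ≤ (a₁ + a₂) * (a₁ * Real.log x) := by gcongr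
    have g9 : (a₁ + a₂) / 2 * Real.log x * (2 * a₁) ≤ Real.log B * (2 * a₁) := by gcongr
    linarith
  have g7 : Real.log r ≤ Real.log (Real.log B / Real.log A) :=
    Real.log_le_log (by linarith) g6
  have g8 := (abs_le.1 hm).1
  linarith

/-- the level `2 ^ 2 ^ J` just below `y` -/
lemma exists_J (y : ℝ) (hy : 2 ≤ y) :
    ∃ J : ℕ, ((2 ^ 2 ^ J : ℕ) : ℝ) ≤ y ∧ y < ((2 ^ 2 ^ (J + 1) : ℕ) : ℝ) := by
  have hex : ∃ J : ℕ, y < ((2 ^ 2 ^ J : ℕ) : ℝ) := by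
    obtain ⟨N, hN⟩ := exists_nat_gt y
    refine ⟨N, hN.trans_le ?_⟩
    have h1 : N < 2 ^ N := Nat.lt_two_pow_self
    have h2 : 2 ^ N < 2 ^ 2 ^ N := Nat.lt_two_pow_self
    exact_mod_cast (by omega : N ≤ 2 ^ 2 ^ N)
  classical
  have h1 := Nat.find_spec hex
  have h2 : Nat.find hex ≠ 0 := by
    intro h0
    rw [h0] at h1
    norm_num at h1
    linarith
  obtain ⟨J, hJ⟩ := Nat.exists_eq_succ_of_ne_zero h2
  refine ⟨J, ?_, ?_⟩
  · have h3 := Nat.find_min hex (m := J) (by omega)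
    push Not at h3
    exact h3
  · rw [hJ] at h1
    exact h1

end Pool.Agent.Helper46_SP
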