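import Mathlib
import Pool.Agent.Helper46_SP.Err

/-! A positive proportion of the integers in `(n, n + k]` is `k`-smooth when `n = k ^ (α + o(1))`
with `1 < α < 7/3`. -/

set_option autoImplicit false

open Finset Filter

namespace Pool.Agent.Helper46_SP

lemma ev_log (c e : ℝ) (hc : 0 < c) (he : 0 < e) :
    ∀ᶠ x : ℝ in atTop, 240000 * Real.log x ^ 3 ≤ c * x ^ e := by
  have h1 := isLittleO_log_rpow_rpow_atTop 3 he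
  have h2 := h1.def (show 0 < c / 240000 by positivity)
  filter_upwards [h2, eventually_ge_atTop 1] with x hx hx1
  have hl : 0 ≤ Real.log x := Real.log_nonneg hx1
  rw [Real.norm_of_nonneg (by positivity), Real.norm_of_nonneg (by positivity)] at hx
  have h3 : Real.log x ^ (3 : ℝ) = Real.log x ^ 3 := by norm_cast
  rw [h3] at hx
  have : c / 240000 * x ^ e = c * x ^ e / 240000 := by ring
  rw [this, le_div_iff₀ (by norm_num)] at hx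
  linarith

/-- the exponents -/
lemma params (α : ℝ) (hα1 : 1 < α) (hα2 : α < 7 / 3) : ∃ η a₁ a₂ b₁ b₂ h : ℝ,
    0 < η ∧ 40 * η ≤ 7 / 3 - α ∧ 40 * η ≤ α - 1 ∧ 0 ≤ h ∧ h ≤ 1 ∧
    a₂ + b₂ - h ≤ 1 - η / 4 ∧ (h + α + η / 4 - a₁ - b₁) / 2 + a₂ ≤ 1 - η / 4 ∧
    a₂ - a₁ - b₁ ≤ -(η / 4) ∧ (3 * b₂ + 3 * a₂ - α + η / 4) / 2 ≤ 1 - η / 4 ∧
    2 * η ≤ a₁ ∧ a₁ < a₂ ∧ a₂ ≤ 1 ∧ 39 * η ≤ b₁ ∧ b₂ = b₁ + η / 2 ∧ b₂ ≤ 1 ∧
    1 + (a₁ + b₁) = 3 * η / 4 + (α + η / 4) := by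
  obtain ⟨η, hη0, hη1, hη2⟩ : ∃ η : ℝ, 0 < η ∧ 40 * η ≤ 7 / 3 - α ∧ 40 * η ≤ α - 1 := by
    refine ⟨min (7 / 3 - α) (α - 1) / 40, ?_, ?_, ?_⟩
    · apply div_pos (lt_min (by linarith) (by linarith)) (by norm_num)
    · have := min_le_left (7 / 3 - α) (α - 1); linarith
    · have := min_le_right (7 / 3 - α) (α - 1); linarith
  rcases le_total α 2 with h2 | h2
  · rcases le_total (α - 2 + 5 * η / 2 + η / 4) 0 with hh | hh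
    · refine ⟨η, 2 * η, 3 * η, α - 1 - η, α - 1 - η / 2, 0, ?_, ?_, ?_, ?_, ?_, ?_, ?_, ?_, ?_,
        ?_, ?_, ?_, ?_, ?_, ?_, ?_⟩ <;> linarith
    · refine ⟨η, 2 * η, 3 * η, α - 1 - η, α - 1 - η / 2, α - 2 + 5 * η / 2 + η / 4,
        ?_, ?_, ?_, ?_, ?_, ?_, ?_, ?_, ?_, ?_, ?_, ?_, ?_, ?_, ?_, ?_⟩ <;> linarith
  · refine ⟨η, α - 2 + 2 * η, α - 2 + 3 * η, 1 - η, 1 - η / 2, α - 2 + 5 * η / 2 + η / 4,
        ?_, ?_, ?_, ?_, ?_, ?_, ?_, ?_, ?_, ?_, ?_, ?_, ?_, ?_, ?_, ?_⟩ <;> linarith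

lemma part_hc (x a₁ b₁ e γ A B n : ℝ) (hx1 : 1 ≤ x) (hA : x ^ a₁ / 2 ≤ A) (hB : x ^ b₁ / 2 ≤ B)
    (hn : n ≤ x ^ e) (he : 1 ≤ e) (hg : 1 + (a₁ + b₁) = γ + e) (h8 : 8 ≤ x ^ γ) :
    n + x ≤ x * (A * B) := by
  have hx0 : 0 < x := by linarith
  have hpow : ∀ e : ℝ, 0 < x ^ e := fun e => Real.rpow_pos_of_pos hx0 e
  have g2 : n + x ≤ 2 * x ^ e := by
    have : x ^ (1 : ℝ) ≤ x ^ e := Real.rpow_le_rpow_of_exponent_le hx1 he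
    rw [Real.rpow_one] at this
    linarith
  refine g2.trans ?_
  have p1 := hpow a₁
  have p2 := hpow b₁
  have p3 := hpow e
  have hA0 : 0 ≤ A := by linarith
  have g3 : x ^ a₁ / 2 * (x ^ b₁ / 2) ≤ A * B := by gcongr
  have e1 : x * (x ^ a₁ * x ^ b₁) = x ^ (1 + (a₁ + b₁)) := by
    rw [Real.rpow_add hx0, Real.rpow_one, Real.rpow_add hx0]
  have e2 : x ^ γ * x ^ e = x ^ (1 + (a₁ + b₁)) := by
    rw [← Real.rpow_add hx0, hg]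
  have g4 : x * (x ^ a₁ / 2 * (x ^ b₁ / 2)) = x ^ γ * x ^ e / 4 := by
    rw [e2, ← e1]; ring
  have g5 : x * (x ^ a₁ / 2 * (x ^ b₁ / 2)) ≤ x * (A * B) := by gcongr
  have g6 : 8 * x ^ e ≤ x ^ γ * x ^ e := by gcongr
  linarith

lemma part_kap (x e₁ z n e : ℝ) (κ : ℕ) (hx : 3 ≤ x) (hn : n ≤ x ^ e) (he : e ≤ 3)
    (he1 : 0 < e₁) (hz0 : 0 < z) (hz : x ^ e₁ < z ^ 2) (hκ : 8 / e₁ ≤ κ) :
    n + x < z ^ (κ + 1) := by
  have hx0 : 0 < x := by linarith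
  have hx1 : 1 ≤ x := by linarith
  have hpow : ∀ e : ℝ, 0 < x ^ e := fun e => Real.rpow_pos_of_pos hx0 e
  have hmono : ∀ e e' : ℝ, e ≤ e' → x ^ e ≤ x ^ e' := fun e e' hee =>
    Real.rpow_le_rpow_of_exponent_le hx1 hee
  have g2 : n + x ≤ 2 * x ^ (3 : ℝ) := by
    have h1 : x ^ (1 : ℝ) ≤ x ^ (3 : ℝ) := hmono _ _ (by norm_num)
    have h2 : x ^ e ≤ x ^ (3 : ℝ) := hmono _ _ he
    rw [Real.rpow_one] at h1
    linarith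
  have g3 : 2 * x ^ (3 : ℝ) < x ^ (4 : ℝ) := by
    have h1 : x ^ (4 : ℝ) = x * x ^ (3 : ℝ) := by
      rw [show (4 : ℝ) = 1 + 3 by norm_num, Real.rpow_add hx0, Real.rpow_one]
    rw [h1]
    have := hpow 3
    nlinarith
  have g4 : x ^ (e₁ / 2) ≤ z := by
    have h3 : x ^ e₁ = (x ^ (e₁ / 2)) ^ 2 := by
      rw [← Real.rpow_natCast, ← Real.rpow_mul hx0.le]
      congr 1
      push_cast; ring
    rw [h3] at hz
    by_contra h4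
    push Not at h4
    have h5 : z ^ 2 ≤ (x ^ (e₁ / 2)) ^ 2 := by gcongr
    linarith
  have g5 : x ^ (4 : ℝ) ≤ z ^ (κ + 1) := by
    calc x ^ (4 : ℝ) ≤ (x ^ (e₁ / 2)) ^ (κ + 1) := by
          rw [← Real.rpow_natCast, ← Real.rpow_mul hx0.le]
          apply hmono
          rw [div_le_iff₀ he1] at hκ
          push_cast
          nlinarith
      _ ≤ _ := by
          have := hpow (e₁ / 2)
          gcongr
  linarith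

lemma part_level (x e₁ η z b₁ F B : ℝ) (C : ℕ) (hx1 : 1 ≤ x) (hz0 : 0 ≤ z) (hz : z ≤ x ^ e₁)
    (he : e₁ * (C * C) = η / 8) (hF : 0 < F) (h8 : 8 * F ≤ x ^ (b₁ - η / 8))
    (hB : x ^ b₁ / 2 ≤ B) : z ^ (C * C) ≤ x ^ (η / 8) ∧ 4 * F * z ^ (C * C) ≤ B := by
  have hx0 : 0 < x := by linarith
  have hzC : z ^ (C * C) ≤ x ^ (η / 8) := by
    calc z ^ (C * C) ≤ (x ^ e₁) ^ (C * C) := by gcongr
      _ = x ^ (η / 8) := by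
        rw [← Real.rpow_natCast, ← Real.rpow_mul hx0.le]
        congr 1
        push_cast
        exact he
  refine ⟨hzC, le_trans ?_ hB⟩
  have h2 : 8 * F * x ^ (η / 8) ≤ x ^ b₁ := by
    calc 8 * F * x ^ (η / 8) ≤ x ^ (b₁ - η / 8) * x ^ (η / 8) := by gcongr
      _ = x ^ b₁ := by rw [← Real.rpow_add hx0]; congr 1; ring
  have h3 : 4 * F * z ^ (C * C) ≤ 4 * F * x ^ (η / 8) := by gcongr
  linarith

lemma part_t (x : ℝ) (hx : 1 ≤ x) (t : ℕ) (ht : 2 * Real.log x ≤ t) : x ≤ 2 ^ t := by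
  have hx0 : 0 < x := by linarith
  have hL : 0 ≤ Real.log x := Real.log_nonneg hx
  have hlog2 : (1 / 2 : ℝ) ≤ Real.log 2 := by have := Real.log_two_gt_d9; linarith
  have h2 : x = Real.exp (Real.log x) := by rw [Real.exp_log hx0]
  have h3 : (2 : ℝ) ^ t = Real.exp (t * Real.log 2) := by
    rw [mul_comm, Real.exp_mul, Real.exp_log (by norm_num), Real.rpow_natCast]
  rw [h3]
  nth_rewrite 1 [h2]
  apply Real.exp_le_exp.2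
  have h4 : 2 * Real.log x * (1 / 2) ≤ (t : ℝ) * Real.log 2 := by
    apply mul_le_mul ht hlog2 (by norm_num)
    linarith
  linarith

lemma part_t' (x η b₁ b₂ B₁ B₂ T : ℝ) (hx1 : 1 ≤ x) (hB₂ : B₂ ≤ x ^ b₂) (hB₁ : x ^ b₁ / 2 ≤ B₁)
    (hb : b₂ = b₁ + η / 2) (h4 : 4 ≤ x ^ (1 - η / 2)) (hT : x ≤ T) : 2 * B₂ ≤ T * B₁ := by
  have hx0 : 0 < x := by linarith
  have hpow : ∀ e : ℝ, 0 < x ^ e := fun e => Real.rpow_pos_of_pos hx0 e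
  calc 2 * B₂ ≤ 2 * x ^ b₂ := by linarith
    _ ≤ x * (x ^ b₁ / 2) := by
      have h2 : x * x ^ b₁ = x ^ (1 - η / 2) * x ^ b₂ := by
        have e1 : x * x ^ b₁ = x ^ (1 + b₁) := by
          rw [Real.rpow_add hx0, Real.rpow_one]
        rw [e1, ← Real.rpow_add hx0]
        congr 1
        rw [hb]; ring
      have h3 : 4 * x ^ b₂ ≤ x ^ (1 - η / 2) * x ^ b₂ := by
        have := hpow b₂
        gcongr
      have h4 : x * (x ^ b₁ / 2) = x * x ^ b₁ / 2 := by ring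
      rw [h4, h2]
      linarith
    _ ≤ T * B₁ := by
      have := hpow b₁
      gcongr
      linarith

lemma part_err (x L J N E η c : ℝ) (hx1 : 1 ≤ x) (hJ0 : 0 ≤ J) (hJ : J + 2 ≤ 4 * L)
    (hN0 : 0 ≤ N) (hN : N ≤ x ^ (η / 8)) (hE0 : 0 ≤ E) (hE : E ≤ 60000 * L ^ 2 * x ^ (1 - η / 4))
    (hc : 240000 * L ^ 3 ≤ c * x ^ (η / 8)) : (J + 2) * (N * E) ≤ c * x := by
  have hx0 : 0 < x := by linarith
  have h2 : 0 < x ^ (η / 8) := Real.rpow_pos_of_pos hx0 _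
  have h3 : 0 < x ^ (1 - η / 4) := Real.rpow_pos_of_pos hx0 _
  have hL : 0 ≤ L := by linarith
  calc (J + 2) * (N * E) ≤ (4 * L) * (x ^ (η / 8) * (60000 * L ^ 2 * x ^ (1 - η / 4))) := by
        gcongr
    _ = 240000 * L ^ 3 * (x ^ (η / 8) * x ^ (1 - η / 4)) := by ring
    _ ≤ c * x ^ (η / 8) * (x ^ (η / 8) * x ^ (1 - η / 4)) := by gcongr
    _ = c * (x ^ (η / 8 + η / 8 + (1 - η / 4))) := by
        rw [Real.rpow_add hx0, Real.rpow_add hx0]; ring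
    _ = c * x := by
        have : η / 8 + η / 8 + (1 - η / 4) = 1 := by ring
        rw [this, Real.rpow_one]

lemma part_J (x e₁ : ℝ) (J : ℕ) (hx : 1 ≤ Real.log x) (hx0 : 0 < x) (he : e₁ ≤ 1 / 2)
    (hz : ((2 ^ 2 ^ J : ℕ) : ℝ) ≤ x ^ e₁) : (J : ℝ) + 2 ≤ 4 * Real.log x := by
  have h1 : (J : ℝ) ≤ 2 ^ J := by
    have : J < 2 ^ J := Nat.lt_two_pow_self
    exact_mod_cast this.le
  have hlog2 : (1 / 2 : ℝ) ≤ Real.log 2 := by have := Real.log_two_gt_d9; linarith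
  have hz0 : (0 : ℝ) < ((2 ^ 2 ^ J : ℕ) : ℝ) := by positivity
  have h2 : (2 : ℝ) ^ J * Real.log 2 ≤ e₁ * Real.log x := by
    have h3 := Real.log_le_log hz0 hz
    rw [Real.log_rpow hx0] at h3
    have h4 : Real.log ((2 ^ 2 ^ J : ℕ) : ℝ) = (2 : ℝ) ^ J * Real.log 2 := by
      push_cast
      rw [Real.log_pow]; push_cast; ring
    rw [h4] at h3
    exact h3
  have h3 : (2 : ℝ) ^ J * (1 / 2) ≤ 2 ^ J * Real.log 2 := by gcongr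
  have h4 : e₁ * Real.log x ≤ 1 / 2 * Real.log x := by gcongr
  linarith

lemma part_main (x η b₁ b₂ s c₁ e₁ F B₁ B₂ S V z : ℝ) (hx1 : 1 ≤ x) (hL1 : 1 ≤ Real.log x)
    (hη : 0 < η) (hs : 0 < s) (hc₁ : 0 < c₁) (he₁ : 0 < e₁) (hF : 0 < F)
    (hb : b₂ = b₁ + η / 2) (hB₁0 : 0 < B₁) (hB₁ : B₁ ≤ x ^ b₁) (hB₂ : x ^ b₂ / 2 ≤ B₂)
    (h7 : Real.log 2 / (η / 4) ≤ Real.log x) (hS : s ≤ S) (hz : 1 < z) (hzx : z ≤ x ^ e₁)
    (hV : c₁ / Real.log z ≤ V) :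
    1 / 2 * (1 / F * (η / 4) * s * (c₁ / e₁)) * x ≤
      1 / 2 * ((x / F * Real.log (B₂ / B₁) * S) * V) := by
  have hx0 : 0 < x := by linarith
  have hpow : ∀ e : ℝ, 0 < x ^ e := fun e => Real.rpow_pos_of_pos hx0 e
  have hlog2 : (1 / 2 : ℝ) ≤ Real.log 2 := by have := Real.log_two_gt_d9; linarith
  have h1 : η / 4 * Real.log x ≤ Real.log (B₂ / B₁) := by
    have h2 : x ^ (η / 2) / 2 ≤ B₂ / B₁ := by
      rw [le_div_iff₀ hB₁0]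
      calc x ^ (η / 2) / 2 * B₁ ≤ x ^ (η / 2) / 2 * x ^ b₁ := by
            have := hpow (η / 2)
            gcongr
        _ = x ^ b₂ / 2 := by
            have : x ^ b₂ = x ^ (η / 2) * x ^ b₁ := by
              rw [← Real.rpow_add hx0]; congr 1; rw [hb]; ring
            rw [this]; ring
        _ ≤ B₂ := hB₂
    have h3 := Real.log_le_log (by have := hpow (η / 2); positivity) h2
    rw [Real.log_div (hpow _).ne' (by norm_num), Real.log_rpow hx0] at h3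
    rw [div_le_iff₀ (by positivity)] at h7
    linarith
  have h4 : c₁ / (e₁ * Real.log x) ≤ V := by
    refine le_trans ?_ hV
    have h5 : 0 < Real.log z := Real.log_pos hz
    have h6 : Real.log z ≤ e₁ * Real.log x := by
      have h3 := Real.log_le_log (by linarith) hzx
      rwa [Real.log_rpow hx0] at h3
    gcongr
  have h5 : 1 / 2 * (1 / F * (η / 4) * s * (c₁ / e₁)) * x =
      1 / 2 * ((x / F * (η / 4 * Real.log x) * s) * (c₁ / (e₁ * Real.log x))) := by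
    field_simp
  rw [h5]
  have h6 : 0 ≤ Real.log (B₂ / B₁) := le_trans (by positivity) h1
  have h7 : 0 ≤ S := by linarith
  have h8 : 0 ≤ x / F * Real.log (B₂ / B₁) * S := by positivity
  gcongr

theorem main (α : ℝ) (hα1 : 1 < α) (hα2 : α < 7 / 3) : ∃ c : ℝ, 0 < c ∧ ∃ δ : ℝ, 0 < δ ∧
    ∃ K : ℕ, ∀ k n : ℕ, K ≤ k → (k : ℝ) ^ (α - δ) ≤ n → (n : ℝ) ≤ (k : ℝ) ^ (α + δ) →
      (ff n k : ℝ) ≤ (1 - c) * k := by
  obtain ⟨C, hC1, hR⟩ := rough_lower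
  obtain ⟨c₁, hc₁, hV⟩ := prod_PJ
  obtain ⟨η, a₁, a₂, b₁, b₂, h, hη0, hη1, hη2, hh0, hh1, hc2, hc3, hc1, hc4, ha₁, ha₁₂, ha₂, hb₁,
    hb₁₂, hb₂, hsum⟩ := params α hα1 hα2
  have hC0 : (1 : ℝ) ≤ C := by exact_mod_cast hC1
  obtain ⟨e₁, he₁0, he₁η, he₁C⟩ : ∃ e₁ : ℝ, 0 < e₁ ∧ e₁ ≤ η / 8 ∧ e₁ * (C * C) = η / 8 := by
    refine ⟨η / (8 * (C * C)), by positivity, ?_, by field_simp⟩
    apply div_le_div_of_nonneg_left hη0.le (by norm_num)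
    nlinarith
  obtain ⟨s, hs0, hs⟩ := mass_A a₁ a₂ (by linarith) ha₁₂
  have hF0 : (0 : ℝ) < (C.factorial : ℝ) := by exact_mod_cast Nat.factorial_pos C
  obtain ⟨c₂, hc₂⟩ : ∃ c₂ : ℝ, c₂ = 1 / 2 * (1 / (C.factorial : ℝ) * (η / 4) * s * (c₁ / e₁)) :=
    ⟨_, rfl⟩
  have hc₂0 : 0 < c₂ := by rw [hc₂]; positivity
  obtain ⟨κ, hκ⟩ : ∃ κ : ℕ, 8 / e₁ ≤ κ := exists_nat_ge _
  -- eventual conditions
  have ev := ((((((((eventually_ge_atTop (3 : ℝ)).and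
    ((tendsto_rpow_atTop he₁0).eventually_ge_atTop 2)).and hs).and
    ((tendsto_rpow_atTop (show 0 < b₁ - η / 8 by linarith)).eventually_ge_atTop
      (8 * (C.factorial : ℝ)))).and
    ((tendsto_rpow_atTop (show 0 < 3 * η / 4 by linarith)).eventually_ge_atTop 8)).and
    ((tendsto_rpow_atTop (show 0 < 1 - η / 2 by linarith)).eventually_ge_atTop 4)).and
    (Real.tendsto_log_atTop.eventually_ge_atTop (Real.log 2 / (η / 4)))).and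
    (ev_log (c₂ / 2) (η / 8) (by positivity) (by positivity)))
  obtain ⟨x₀, hx₀⟩ := eventually_atTop.1 ev
  refine ⟨c₂ / 2 / 4 ^ κ, by positivity, η / 4, by positivity, ⌈x₀⌉₊, ?_⟩
  intro k n hk hn₁ hn₂
  obtain ⟨⟨⟨⟨⟨⟨⟨E1, E2⟩, E3⟩, E4⟩, E5⟩, E6⟩, E7⟩, E8⟩ := hx₀ (k : ℝ) (Nat.ceil_le.1 hk)
  clear ev hx₀ hk
  have hx0 : (0 : ℝ) < k := by linarith
  have hx1 : (1 : ℝ) ≤ k := by linarith
  have hk3 : 3 ≤ k := by exact_mod_cast E1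
  have hpow : ∀ e : ℝ, 0 < (k : ℝ) ^ e := fun e => Real.rpow_pos_of_pos hx0 e
  have hmono : ∀ e e' : ℝ, e ≤ e' → (k : ℝ) ^ e ≤ (k : ℝ) ^ e' := fun e e' hee =>
    Real.rpow_le_rpow_of_exponent_le hx1 hee
  have hL1 : 1 ≤ Real.log k := by
    rw [Real.le_log_iff_exp_le hx0]
    have := Real.exp_one_lt_d9
    linarith
  -- the integers
  obtain ⟨J, hJ1, hJ2⟩ := exists_J ((k : ℝ) ^ e₁) E2
  have hz2 : (2 : ℝ) ≤ ((2 ^ 2 ^ J : ℕ) : ℝ) := by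
    have : 2 ≤ 2 ^ 2 ^ J := by
      calc 2 = 2 ^ 1 := by norm_num
        _ ≤ 2 ^ 2 ^ J := Nat.pow_le_pow_right (by norm_num) Nat.one_le_two_pow
    exact_mod_cast this
  have hxa : 2 ≤ (k : ℝ) ^ a₁ := E2.trans (hmono _ _ (by linarith))
  have hxb : 2 ≤ (k : ℝ) ^ b₁ := E2.trans (hmono _ _ (by linarith))
  have hxb2 : (k : ℝ) ^ b₁ ≤ (k : ℝ) ^ b₂ := hmono _ _ (by linarith)
  obtain ⟨A₁, hA₁⟩ : ∃ A₁ : ℕ, A₁ = ⌊(k : ℝ) ^ a₁⌋₊ := ⟨_, rfl⟩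
  obtain ⟨A₂, hA₂⟩ : ∃ A₂ : ℕ, A₂ = ⌊(k : ℝ) ^ a₂⌋₊ := ⟨_, rfl⟩
  obtain ⟨B₁, hB₁⟩ : ∃ B₁ : ℕ, B₁ = ⌊(k : ℝ) ^ b₁⌋₊ := ⟨_, rfl⟩
  obtain ⟨B₂, hB₂⟩ : ∃ B₂ : ℕ, B₂ = ⌊(k : ℝ) ^ b₂⌋₊ := ⟨_, rfl⟩
  obtain ⟨H, hH⟩ : ∃ H : ℕ, H = ⌈(k : ℝ) ^ h⌉₊ := ⟨_, rfl⟩
  obtain ⟨t, ht⟩ : ∃ t : ℕ, t = ⌈2 * Real.log k⌉₊ := ⟨_, rfl⟩
  have qA₁ : (k : ℝ) ^ a₁ / 2 ≤ A₁ := by rw [hA₁]; exact floor_half _ (by linarith)
  have qB₁ : (k : ℝ) ^ b₁ / 2 ≤ B₁ := by rw [hB₁]; exact floor_half _ (by linarith)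
  have qB₂l : (k : ℝ) ^ b₂ / 2 ≤ B₂ := by rw [hB₂]; exact floor_half _ (by linarith)
  have qA₂ : (A₂ : ℝ) ≤ (k : ℝ) ^ a₂ := by rw [hA₂]; exact Nat.floor_le (hpow _).le
  have qB₂ : (B₂ : ℝ) ≤ (k : ℝ) ^ b₂ := by rw [hB₂]; exact Nat.floor_le (hpow _).le
  have qB₁' : (B₁ : ℝ) ≤ (k : ℝ) ^ b₁ := by rw [hB₁]; exact Nat.floor_le (hpow _).le
  have qH₁ : (k : ℝ) ^ h ≤ H := by rw [hH]; exact Nat.le_ceil _
  have hxh : 1 ≤ (k : ℝ) ^ h := Real.one_le_rpow hx1 hh0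
  have qH₂ : (H : ℝ) ≤ 2 * (k : ℝ) ^ h := by
    have := Nat.ceil_lt_add_one (hpow h).le
    rw [← hH] at this
    linarith
  have hA₁1 : 1 ≤ A₁ := by rw [hA₁]; apply Nat.le_floor; push_cast; linarith
  have hB₁1 : 1 ≤ B₁ := by rw [hB₁]; apply Nat.le_floor; push_cast; linarith
  have hB₁₂ : B₁ ≤ B₂ := by rw [hB₁, hB₂]; exact Nat.floor_le_floor hxb2
  have hH1 : 1 ≤ H := by
    have : (1 : ℝ) ≤ H := by linarith
    exact_mod_cast this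
  have qt : (t : ℝ) ≤ 3 * Real.log k := by
    have := Nat.ceil_lt_add_one (show 0 ≤ 2 * Real.log k by linarith)
    rw [← ht] at this
    linarith
  have qt2 : (k : ℝ) ≤ 2 ^ t := part_t _ hx1 t (by rw [ht]; exact Nat.le_ceil _)
  have hknN : k ≤ n := by
    have h1 : (k : ℝ) ≤ n := by
      refine le_trans ?_ hn₁
      have := hmono 1 (α - η / 4) (by linarith)
      rwa [Real.rpow_one] at this
    exact_mod_cast h1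
  have hn1 : 1 ≤ n := by omega
  obtain ⟨hzC, hlev⟩ := part_level (k : ℝ) e₁ η ((2 ^ 2 ^ J : ℕ) : ℝ) b₁ (C.factorial : ℝ) B₁ C hx1
    (by linarith) hJ1 he₁C hF0 E4 qB₁
  have qsieve : 4 * C.factorial * (2 ^ 2 ^ J) ^ (C * C) ≤ B₁ := by exact_mod_cast hlev
  have qt3 : 2 * B₂ ≤ 2 ^ t * B₁ := by
    have h1 := part_t' (k : ℝ) η b₁ b₂ B₁ B₂ (2 ^ t) hx1 qB₂ qB₁ hb₁₂ E6 qt2
    exact_mod_cast h1
  have hc := part_hc (k : ℝ) a₁ b₁ (α + η / 4) (3 * η / 4) A₁ B₁ n hx1 qA₁ qB₁ hn₂ (by linarith)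
    hsum E5
  have hkap := part_kap (k : ℝ) e₁ ((2 ^ 2 ^ J : ℕ) : ℝ) n (α + η / 4) κ E1 hn₂ (by linarith) he₁0
    (by linarith) (by
      have h2 : ((2 ^ 2 ^ (J + 1) : ℕ) : ℝ) = ((2 ^ 2 ^ J : ℕ) : ℝ) ^ 2 := by
        push_cast
        rw [← pow_mul, pow_succ]
      rw [← h2]; exact hJ2) hκ
  -- the set of primes
  obtain ⟨𝒜, h𝒜⟩ : ∃ 𝒜 : Finset ℕ, 𝒜 = (Ioc A₁ A₂).filter Nat.Prime := ⟨_, rfl⟩
  have hAmem : ∀ a ∈ 𝒜, A₁ ≤ a ∧ a ≤ A₂ := by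
    intro a ha
    rw [h𝒜, mem_filter, mem_Ioc] at ha
    exact ⟨ha.1.1.le, ha.1.2⟩
  have S1 := hR n k A₁ A₂ B₁ B₂ H t J 𝒜 hAmem hA₁1 qsieve hB₁₂ hknN hn1 hH1 qt3
  -- multiplicities
  have S2 := mult_bound n k A₁ B₁ B₂ J C κ 𝒜
    (by
      intro a ha
      rw [h𝒜, mem_filter, mem_Ioc] at ha
      obtain ⟨⟨g1, g2⟩, g3⟩ := ha
      refine ⟨g3, ?_, g1.le, ?_⟩
      · have g4 : (k : ℝ) ^ a₁ < a := by rw [hA₁] at g1; exact Nat.lt_of_floor_lt g1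
        have g5 : ((2 ^ 2 ^ J : ℕ) : ℝ) < a :=
          lt_of_le_of_lt (hJ1.trans (hmono _ _ (by linarith))) g4
        exact_mod_cast g5
      · have g4 : (a : ℝ) ≤ A₂ := by exact_mod_cast g2
        have g5 : (a : ℝ) ≤ (k : ℝ) ^ (1 : ℝ) :=
          g4.trans (qA₂.trans (hmono _ _ ha₂))
        rw [Real.rpow_one] at g5
        exact_mod_cast g5)
    (by
      have g5 : (B₂ : ℝ) ≤ (k : ℝ) ^ (1 : ℝ) := qB₂.trans (hmono _ _ hb₂)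
      rw [Real.rpow_one] at g5
      exact_mod_cast g5)
    (by exact_mod_cast hc) (by exact_mod_cast hkap) hA₁1 hB₁1
  -- the error term
  have S3 := err_bound n k A₁ A₂ B₁ B₂ H t α (η / 4) a₁ a₂ b₁ b₂ h (η / 4) hk3 qA₂ qA₁ qB₁ qB₂
    qH₁ qH₂ hn₁ hn₂ qt hh0 hh1 hc1 hc2 hc3 hc4
  have hJL := part_J (k : ℝ) e₁ J hL1 hx0 (by linarith) hJ1
  have hErr := part_err (k : ℝ) (Real.log k) J (((2 ^ 2 ^ J : ℕ) : ℝ) ^ (C * C))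
    (err0 n k A₁ A₂ B₁ B₂ H t) η (c₂ / 2) hx1 (Nat.cast_nonneg _) hJL (by positivity) hzC
    (by
      have hH1r : (1 : ℝ) ≤ H := by exact_mod_cast hH1
      have hlogH : 0 ≤ Real.log H := Real.log_nonneg hH1r
      unfold err0; positivity) S3 E8
  -- the main term
  have hMain := part_main (k : ℝ) η b₁ b₂ s c₁ e₁ (C.factorial : ℝ) B₁ B₂
    (∑ a ∈ 𝒜, 1 / (a : ℝ)) (∏ p ∈ PJ C J, (1 - 1 / (p : ℝ))) ((2 ^ 2 ^ J : ℕ) : ℝ) hx1 hL1 hη0 hs0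
    hc₁ he₁0 hF0 hb₁₂ (by exact_mod_cast hB₁1) qB₁' qB₂l E7 (by rw [h𝒜, hA₁, hA₂]; exact E3)
    (by linarith) hJ1 (hV C J)
  rw [← hc₂] at hMain
  have h9 : (((2 ^ 2 ^ J : ℕ) : ℝ)) ^ (C * C) = ((2 : ℝ) ^ 2 ^ J) ^ (C * C) := by push_cast; rfl
  rw [h9] at hErr
  have S4 : c₂ / 2 * k ≤ 4 ^ κ * ((k : ℝ) - ff n k) := by
    have := S1.trans S2
    linarith
  have h4κ : (0 : ℝ) < 4 ^ κ := by positivity
  have S5 : c₂ / 2 / 4 ^ κ * k ≤ (k : ℝ) - ff n k := by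
    rw [div_mul_eq_mul_div, div_le_iff₀ h4κ]
    linarith
  linarith

end Pool.Agent.Helper46_SP
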